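import Pool.Agent.Results.MP_b525e0_co.DoubleStarZero

/-!
# Zeros of the graph amplitude at bridges of bipartite graphs
-/

set_option autoImplicit false

namespace Pool.Agent.Y356.GA

open Finset Pool.Agent.Results.MP_b525e0_co.DoubleStarZero

/-! ### Two directions -/

/-- the unit vector whose spinor is proportional to `(1, x)` -/
noncomputable def nx (x : ℝ) : R3 := !₂[2 * x / (1 + x ^ 2), 0, (1 - x ^ 2) / (1 + x ^ 2)]

/-- the unit vector whose spinor is proportional to `(y, 1)` -/
noncomputable def ny (y : ℝ) : R3 := !₂[2 * y / (1 + y ^ 2), 0, (y ^ 2 - 1) / (1 + y ^ 2)]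

theorem norm_nx (x : ℝ) : ‖nx x‖ = 1 := by
  have h : (1 : ℝ) + x ^ 2 ≠ 0 := by positivity
  rw [EuclideanSpace.norm_eq, Fin.sum_univ_three, Real.sqrt_eq_one]
  simp only [nx, PiLp.toLp_apply, Matrix.cons_val_zero, Matrix.cons_val_one, Matrix.cons_val,
    Real.norm_eq_abs, sq_abs]
  field_simp
  ring

theorem norm_ny (y : ℝ) : ‖ny y‖ = 1 := by
  have h : (1 : ℝ) + y ^ 2 ≠ 0 := by positivity
  rw [EuclideanSpace.norm_eq, Fin.sum_univ_three, Real.sqrt_eq_one]
  simp only [ny, PiLp.toLp_apply, Matrix.cons_val_zero, Matrix.cons_val_one, Matrix.cons_val,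
    Real.norm_eq_abs, sq_abs]
  field_simp
  ring

theorem sp_nx {x : ℝ} (hx : 0 < x) {a : Fin 2 → ℂ} (h : IsSpinorOf (nx x) a) :
    a 1 = x * a 0 := by
  obtain ⟨p, -⟩ := spinor_eqs h
  have h1 : (1 : ℝ) + x ^ 2 ≠ 0 := by positivity
  have h2 : (1 : ℂ) + (x : ℂ) ^ 2 ≠ 0 := by exact_mod_cast h1
  have h3 : (x : ℂ) ≠ 0 := by exact_mod_cast hx.ne'
  simp only [nx, PiLp.toLp_apply, Matrix.cons_val_zero, Matrix.cons_val_one, Matrix.cons_val] at p
  push_cast at p
  have p' : (2 * (x : ℂ)) * a 1 = (2 * (x : ℂ)) * (x * a 0) := by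
    field_simp at p
    linear_combination p
  exact mul_left_cancel₀ (mul_ne_zero two_ne_zero h3) p'

theorem sp_nx' {x : ℝ} (hx : 0 < x) {a : Fin 2 → ℂ} (h : IsSpinorOf (-nx x) a) :
    a 0 = -x * a 1 := by
  obtain ⟨-, p⟩ := spinor_eqs h
  have h1 : (1 : ℝ) + x ^ 2 ≠ 0 := by positivity
  have h2 : (1 : ℂ) + (x : ℂ) ^ 2 ≠ 0 := by exact_mod_cast h1
  have h3 : (x : ℂ) ≠ 0 := by exact_mod_cast hx.ne'
  simp only [nx, PiLp.neg_apply, Matrix.cons_val_zero, Matrix.cons_val_one,
    Matrix.cons_val] at p
  push_cast at p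
  have p' : (2 * (x : ℂ)) * a 0 = (2 * (x : ℂ)) * (-x * a 1) := by
    field_simp at p
    linear_combination -p
  exact mul_left_cancel₀ (mul_ne_zero two_ne_zero h3) p'

theorem sp_ny {y : ℝ} (hy : 0 < y) {a : Fin 2 → ℂ} (h : IsSpinorOf (ny y) a) :
    a 0 = y * a 1 := by
  obtain ⟨-, p⟩ := spinor_eqs h
  have h1 : (1 : ℝ) + y ^ 2 ≠ 0 := by positivity
  have h2 : (1 : ℂ) + (y : ℂ) ^ 2 ≠ 0 := by exact_mod_cast h1
  have h3 : (y : ℂ) ≠ 0 := by exact_mod_cast hy.ne'
  simp only [ny, PiLp.toLp_apply, Matrix.cons_val_zero, Matrix.cons_val_one, Matrix.cons_val] at p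
  push_cast at p
  have p' : (2 * (y : ℂ)) * a 0 = (2 * (y : ℂ)) * (y * a 1) := by
    field_simp at p
    linear_combination p
  exact mul_left_cancel₀ (mul_ne_zero two_ne_zero h3) p'

theorem sp_ny' {y : ℝ} (hy : 0 < y) {a : Fin 2 → ℂ} (h : IsSpinorOf (-ny y) a) :
    a 1 = -y * a 0 := by
  obtain ⟨p, -⟩ := spinor_eqs h
  have h1 : (1 : ℝ) + y ^ 2 ≠ 0 := by positivity
  have h2 : (1 : ℂ) + (y : ℂ) ^ 2 ≠ 0 := by exact_mod_cast h1
  have h3 : (y : ℂ) ≠ 0 := by exact_mod_cast hy.ne'
  simp only [ny, PiLp.neg_apply, Matrix.cons_val_zero, Matrix.cons_val_one,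
    Matrix.cons_val] at p
  push_cast at p
  have p' : (2 * (y : ℂ)) * a 1 = (2 * (y : ℂ)) * (-y * a 0) := by
    field_simp at p
    linear_combination -p
  exact mul_left_cancel₀ (mul_ne_zero two_ne_zero h3) p'

/-- the direction on the side `b` -/
noncomputable def dirn (x y : ℝ) (b : Bool) : R3 := if b then ny y else nx x

/-- the base point of the side `b` -/
noncomputable def base (b : Bool) : R3 := if b then e3 else 0

/-- the scale of the side `b` -/
noncomputable def Kc (x y : ℝ) (b : Bool) : ℝ :=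
  if b then (1 + y ^ 2) / (2 * y) else (1 + x ^ 2) / (2 * x)

theorem norm_dirn (x y : ℝ) (b : Bool) : ‖dirn x y b‖ = 1 := by
  cases b
  · exact norm_nx x
  · exact norm_ny y

theorem Kc_pos {x y : ℝ} (hx : 0 < x) (hy : 0 < y) (b : Bool) : 0 < Kc x y b := by
  cases b
  · show 0 < (1 + x ^ 2) / (2 * x)
    positivity
  · show 0 < (1 + y ^ 2) / (2 * y)
    positivity

theorem Kc_dirn {x y : ℝ} (hx : 0 < x) (hy : 0 < y) (b : Bool) :
    Kc x y b * dirn x y b 0 = 1 := by
  cases b
  · show (1 + x ^ 2) / (2 * x) * nx x 0 = 1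
    simp only [nx, PiLp.toLp_apply, Matrix.cons_val_zero]
    field_simp
  · show (1 + y ^ 2) / (2 * y) * ny y 0 = 1
    simp only [ny, PiLp.toLp_apply, Matrix.cons_val_zero]
    field_simp

variable {V : Type}

/-- The edge `uv` separates `G` into two sides (given by `s`) each of which is bipartite (the
classes are given by `c`); `u` and `v` are in the lower classes. -/
structure Sides (G : SimpleGraph V) (u v : V) (s c : V → Bool) : Prop where
  adj : G.Adj u v
  su : s u = false
  sv : s v = true
  cu : c u = false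
  cv : c v = false
  same : ∀ i j, G.Adj i j → ¬ (i = u ∧ j = v) → ¬ (i = v ∧ j = u) → s i = s j ∧ c i ≠ c j

section config
open Classical
variable [Fintype V]

/-- the position of a vertex on the line of its side -/
noncomputable def tau (u v : V) (c : V → Bool) (z : V) : ℝ :=
  if z = u ∨ z = v then 0
  else (if c z then 1 else -1) * (((Fintype.equivFin V z : ℕ) : ℝ) + 1)

/-- the configuration -/
noncomputable def pos (x y : ℝ) (u v : V) (s c : V → Bool) (z : V) : R3 :=
  base (s z) + (tau u v c z * Kc x y (s z)) • dirn x y (s z)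

variable {G : SimpleGraph V} {u v : V} {s c : V → Bool} {x y : ℝ}

theorem pos_zero_coord (hx : 0 < x) (hy : 0 < y) (z : V) :
    pos x y u v s c z 0 = tau u v c z := by
  unfold pos
  simp only [PiLp.add_apply, PiLp.smul_apply, smul_eq_mul]
  rw [mul_assoc, Kc_dirn hx hy, mul_one]
  have : base (s z) 0 = 0 := by
    unfold base
    split_ifs
    · simp [e3]
    · simp
  rw [this, zero_add]

theorem tau_low (z : V) (h : c z = false) : tau u v c z ≤ 0 := by
  unfold tau
  by_cases h1 : z = u ∨ z = v
  · rw [if_pos h1]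
  · rw [if_neg h1, if_neg (by rw [h]; decide)]
    have : (0 : ℝ) ≤ ((Fintype.equivFin V z : ℕ) : ℝ) := Nat.cast_nonneg _
    linarith

theorem tau_high (hS : Sides G u v s c) (z : V) (h : c z = true) : 0 < tau u v c z := by
  unfold tau
  rw [if_neg]
  · simp only [h, ↓reduceIte]
    have : (0 : ℝ) ≤ ((Fintype.equivFin V z : ℕ) : ℝ) := Nat.cast_nonneg _
    linarith
  · rintro (rfl | rfl)
    · rw [hS.cu] at h; exact absurd h (by decide)
    · rw [hS.cv] at h; exact absurd h (by decide)

theorem pos_u (hS : Sides G u v s c) : pos x y u v s c u = 0 := by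
  unfold pos tau base
  simp [hS.su]

theorem pos_v (hS : Sides G u v s c) : pos x y u v s c v = e3 := by
  unfold pos tau base
  simp [hS.sv]

theorem pos_injective (hS : Sides G u v s c) (hx : 0 < x) (hy : 0 < y) :
    Function.Injective (pos x y u v s c) := by
  intro i j hij
  have h : tau u v c i = tau u v c j := by
    rw [← pos_zero_coord (s := s) hx hy i, ← pos_zero_coord (s := s) hx hy j, hij]
  have hne : e3 ≠ 0 := by
    intro h0
    have := norm_e3
    rw [h0, norm_zero] at this
    exact zero_ne_one this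
  have habs : ∀ z : V, ¬ (z = u ∨ z = v) →
      |tau u v c z| = ((Fintype.equivFin V z : ℕ) : ℝ) + 1 := by
    intro z hz
    unfold tau
    rw [if_neg hz, abs_mul]
    have h1 : |(if c z = true then (1 : ℝ) else -1)| = 1 := by split_ifs <;> simp
    rw [h1, one_mul, abs_of_nonneg]
    positivity
  have hpos : ∀ z : V, ¬ (z = u ∨ z = v) → 0 < |tau u v c z| := by
    intro z hz
    rw [habs z hz]
    positivity
  have hzero : ∀ z : V, (z = u ∨ z = v) → |tau u v c z| = 0 := by
    intro z hz
    unfold tau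
    rw [if_pos hz, abs_zero]
  by_cases hi : i = u ∨ i = v
  · by_cases hj : j = u ∨ j = v
    · rcases hi with rfl | rfl
      · rcases hj with rfl | rfl
        · rfl
        · rw [pos_u hS, pos_v hS] at hij
          exact absurd hij.symm hne
      · rcases hj with rfl | rfl
        · rw [pos_u hS, pos_v hS] at hij
          exact absurd hij hne
        · rfl
    · exfalso
      have := hpos j hj
      rw [← h, hzero i hi] at this
      exact lt_irrefl _ this
  · by_cases hj : j = u ∨ j = v
    · exfalso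
      have := hpos i hi
      rw [h, hzero j hj] at this
      exact lt_irrefl _ this
    · have h1 : ((Fintype.equivFin V i : ℕ) : ℝ) = ((Fintype.equivFin V j : ℕ) : ℝ) := by
        have h2 := habs i hi
        rw [h, habs j hj] at h2
        linarith
      have h3 : (Fintype.equivFin V i : ℕ) = (Fintype.equivFin V j : ℕ) := by exact_mod_cast h1
      exact (Fintype.equivFin V).injective (Fin.ext h3)

theorem dir_uv (hS : Sides G u v s c) : direction (pos x y u v s c) u v = e3 :=
  direction_eq (t := 1) one_pos norm_e3 (by rw [pos_u hS, pos_v hS]; simp)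

theorem dir_low (hS : Sides G u v s c) (hx : 0 < x) (hy : 0 < y) {i j : V} (hs : s i = s j)
    (hi : c i = false) (hj : c j = true) :
    direction (pos x y u v s c) i j = dirn x y (s i) := by
  refine direction_eq (t := (tau u v c j - tau u v c i) * Kc x y (s i)) ?_ (norm_dirn x y _) ?_
  · have h1 := tau_high hS j hj
    have h2 := tau_low (u := u) (v := v) i hi
    exact mul_pos (by linarith) (Kc_pos hx hy _)
  · unfold pos
    rw [← hs, add_sub_add_left_eq_sub, ← sub_smul]
    congr 1
    ring

/-- the standard spinor of a dart, up to a factor -/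
noncomputable def vec (x y : ℝ) (u v : V) (s c : V → Bool) (d : G.Dart) : Fin 2 → ℂ :=
  if d.fst = u ∧ d.snd = v then ![1, 0]
  else if d.fst = v ∧ d.snd = u then ![0, 1]
  else if s d.fst then (if c d.fst then ![-1, (y : ℂ)] else ![(y : ℂ), 1])
  else (if c d.fst then ![-(x : ℂ), 1] else ![1, (x : ℂ)])

/-- the spinor of the upper class -/
noncomputable def chi' (x y : ℝ) (b : Bool) : Fin 2 → ℂ := if b then ![-1, (y : ℂ)] else ![-(x : ℂ), 1]

theorem exists_scalar (hS : Sides G u v s c) (hx : 0 < x) (hy : 0 < y)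
    {ψ : G.Dart → Fin 2 → ℂ} (hψ : IsSpinorChoice G (pos x y u v s c) ψ) (d : G.Dart) :
    ∃ l : ℂ, ψ d = l • vec x y u v s c d := by
  have h := hψ d
  unfold vec
  split_ifs with h1 h2 h3 h4 h4
  · rw [h1.1, h1.2, dir_uv hS] at h
    refine ⟨ψ d 0, ?_⟩
    have e := sp_e3 h
    ext k
    fin_cases k
    · simp
    · simp [e]
  · rw [h2.1, h2.2, direction_symm, dir_uv hS] at h
    refine ⟨ψ d 1, ?_⟩
    have e := sp_e3' h
    ext k
    fin_cases k
    · simp [e]
    · simp
  · -- side `true`, upper class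
    obtain ⟨hs, hc⟩ := hS.same _ _ d.adj h1 h2
    have h5 : c d.snd = false := by
      rw [h4] at hc
      cases hh : c d.snd
      · rfl
      · exact absurd hh.symm hc
    rw [direction_symm, dir_low hS hx hy hs.symm h5 h4, ← hs, h3] at h
    have e := sp_ny' hy h
    refine ⟨- ψ d 0, ?_⟩
    ext k
    fin_cases k
    · simp
    · simp [e]; ring
  · -- side `true`, lower class
    obtain ⟨hs, hc⟩ := hS.same _ _ d.adj h1 h2
    have h4' : c d.fst = false := by simpa using h4
    have h5 : c d.snd = true := by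
      rw [h4'] at hc
      cases hh : c d.snd
      · exact absurd hh.symm hc
      · rfl
    rw [dir_low hS hx hy hs h4' h5, h3] at h
    have e := sp_ny hy h
    refine ⟨ψ d 1, ?_⟩
    ext k
    fin_cases k
    · simp [e]; ring
    · simp
  · -- side `false`, upper class
    obtain ⟨hs, hc⟩ := hS.same _ _ d.adj h1 h2
    have h3' : s d.fst = false := by simpa using h3
    have h5 : c d.snd = false := by
      rw [h4] at hc
      cases hh : c d.snd
      · rfl
      · exact absurd hh.symm hc
    rw [direction_symm, dir_low hS hx hy hs.symm h5 h4, ← hs, h3'] at h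
    have e := sp_nx' hx h
    refine ⟨ψ d 1, ?_⟩
    ext k
    fin_cases k
    · simp [e]; ring
    · simp
  · obtain ⟨hs, hc⟩ := hS.same _ _ d.adj h1 h2
    have h3' : s d.fst = false := by simpa using h3
    have h4' : c d.fst = false := by simpa using h4
    have h5 : c d.snd = true := by
      rw [h4'] at hc
      cases hh : c d.snd
      · exact absurd hh.symm hc
      · rfl
    rw [dir_low hS hx hy hs h4' h5, h3'] at h
    have e := sp_nx hx h
    refine ⟨ψ d 0, ?_⟩
    ext k
    fin_cases k
    · simp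
    · simp [e]; ring

end config

end Pool.Agent.Y356.GA
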