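import Pool.Agent.Y356.GA.Bridge

/-!
# Zeros of the graph amplitude at bridges of bipartite graphs: the sum over the permutations
-/

set_option autoImplicit false

namespace Pool.Agent.Y356.GA

open Finset Pool.Agent.Results.MP_b525e0_co.DoubleStarZero

theorem omega_smul (l m : ℂ) (a b : Fin 2 → ℂ) : omega (l • a) (m • b) = l * m * omega a b := by
  simp only [omega, Pi.smul_apply, smul_eq_mul]
  ring

section
open Classical
variable {V : Type} [Fintype V]
variable {G : SimpleGraph V} {u v : V} {s c : V → Bool} {x y : ℝ}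

theorem prod_orient (Δ : Finset G.Dart) (h : IsOrientation G Δ) (F : G.Dart → ℂ) :
    ∏ d ∈ Δ, (F d * F d.symm) = ∏ d, F d := by
  have h1 : ∏ d ∈ Δ, F d.symm = ∏ d ∈ Δ.image SimpleGraph.Dart.symm, F d := by
    rw [Finset.prod_image]
    intro a _ b _ hab
    have := congrArg SimpleGraph.Dart.symm hab
    simpa using this
  have h2 : Disjoint Δ (Δ.image SimpleGraph.Dart.symm) := by
    rw [Finset.disjoint_left]
    intro d hd hd'
    rw [Finset.mem_image] at hd'
    obtain ⟨e, he, rfl⟩ := hd'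
    rcases h e with h3 | h3
    · exact h3.2 hd
    · exact h3.1 he
  have h3 : Δ ∪ Δ.image SimpleGraph.Dart.symm = univ := by
    ext d
    simp only [Finset.mem_union, Finset.mem_image, Finset.mem_univ, iff_true]
    rcases h d with h4 | h4
    · exact Or.inl h4.1
    · exact Or.inr ⟨d.symm, h4.2, SimpleGraph.Dart.symm_symm d⟩
  rw [Finset.prod_mul_distrib, h1, ← Finset.prod_union h2, h3]

/-- the central dart -/
def dd (hS : Sides G u v s c) : G.Dart := ⟨(u, v), hS.adj⟩

/-- normaliser -/
noncomputable def gg (x y : ℝ) (u v : V) (s c : V → Bool) (d : G.Dart) : ℂ :=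
  omega (vec x y u v s c d) (chi' x y (s d.fst))

/-- normalised spinors -/
noncomputable def ww (x y : ℝ) (u v : V) (s c : V → Bool) (d : G.Dart) : Fin 2 → ℂ :=
  (gg x y u v s c d)⁻¹ • vec x y u v s c d

theorem eq_dd (hS : Sides G u v s c) (d : G.Dart) : d = dd hS ↔ d.fst = u ∧ d.snd = v := by
  constructor
  · rintro rfl; exact ⟨rfl, rfl⟩
  · rintro ⟨h1, h2⟩
    apply SimpleGraph.Dart.ext
    exact Prod.ext h1 h2

theorem eq_dd' (hS : Sides G u v s c) (d : G.Dart) :
    d = (dd hS).symm ↔ d.fst = v ∧ d.snd = u := by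
  constructor
  · rintro rfl; exact ⟨rfl, rfl⟩
  · rintro ⟨h1, h2⟩
    apply SimpleGraph.Dart.ext
    exact Prod.ext h1 h2

theorem gg_ne (hS : Sides G u v s c) (d : G.Dart) (hc : c d.fst = false) :
    gg x y u v s c d ≠ 0 := by
  have hx2 : (1 : ℂ) + (x : ℂ) * x ≠ 0 := by
    have : (0 : ℝ) < 1 + x * x := by nlinarith [mul_self_nonneg x]
    exact_mod_cast this.ne'
  have hy2 : (1 : ℂ) + (y : ℂ) * y ≠ 0 := by
    have : (0 : ℝ) < 1 + y * y := by nlinarith [mul_self_nonneg y]
    exact_mod_cast this.ne'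
  unfold gg vec chi' omega
  by_cases h1 : d.fst = u ∧ d.snd = v
  · rw [if_pos h1, h1.1, hS.su]
    simp
  · rw [if_neg h1]
    by_cases h2 : d.fst = v ∧ d.snd = u
    · rw [if_pos h2, h2.1, hS.sv]
      simp
    · rw [if_neg h2, hc]
      cases hs : s d.fst
      · simp only [Bool.false_eq_true, ↓reduceIte, Matrix.cons_val_zero, Matrix.cons_val_one,
          Matrix.cons_val_fin_one]
        intro h
        apply hx2
        linear_combination h
      · simp only [Bool.false_eq_true, ↓reduceIte, Matrix.cons_val_zero, Matrix.cons_val_one,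
          Matrix.cons_val_fin_one]
        intro h
        apply hy2
        linear_combination h

/-- the orientation from the lower to the upper classes -/
noncomputable def lowO (hS : Sides G u v s c) : Finset G.Dart :=
  insert (dd hS) (univ.filter fun d => c d.fst = false ∧ d ≠ dd hS ∧ d ≠ (dd hS).symm)

theorem isOrientation_lowO (hS : Sides G u v s c) : IsOrientation G (lowO hS) := by
  have hne : u ≠ v := hS.adj.ne
  intro d
  unfold lowO
  simp only [Finset.mem_insert, Finset.mem_filter, Finset.mem_univ, true_and]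
  by_cases h1 : d = dd hS
  · left
    refine ⟨Or.inl h1, ?_⟩
    rw [h1]
    rintro (h | h)
    · have := congrArg (fun e : G.Dart => e.fst) h
      exact hne this.symm
    · exact h.2.2 rfl
  · by_cases h2 : d = (dd hS).symm
    · right
      refine ⟨?_, ?_⟩
      · rintro (h | h)
        · exact h1 h
        · exact h.2.2 h2
      · left
        rw [h2, SimpleGraph.Dart.symm_symm]
    · have h1' : ¬ (d.fst = u ∧ d.snd = v) := fun h => h1 ((eq_dd hS d).2 h)
      have h2' : ¬ (d.fst = v ∧ d.snd = u) := fun h => h2 ((eq_dd' hS d).2 h)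
      obtain ⟨-, hc⟩ := hS.same _ _ d.adj h1' h2'
      have h3 : d.symm ≠ dd hS := by
        intro h
        apply h2
        rw [← h, SimpleGraph.Dart.symm_symm]
      have h4 : d.symm ≠ (dd hS).symm := by
        intro h
        apply h1
        have := congrArg SimpleGraph.Dart.symm h
        simpa using this
      have h5 : d.symm.fst = d.snd := rfl
      rw [h5]
      cases hf : c d.fst
      · left
        refine ⟨Or.inr ⟨rfl, h1, h2⟩, ?_⟩
        rintro (h | h)
        · exact h3 h
        · rw [hf, h.1] at hc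
          exact hc rfl
      · right
        refine ⟨?_, ?_⟩
        · rintro (h | h)
          · exact h1 h
          · exact absurd h.1 (by decide)
        · right
          refine ⟨?_, h3, h4⟩
          cases hg : c d.snd
          · rfl
          · rw [hf, hg] at hc
            exact absurd rfl hc

theorem prod_formula' (hS : Sides G u v s c) (σ : Equiv.Perm G.Dart)
    (hσ : ∀ d : G.Dart, (σ d).fst = d.fst) :
    ∏ d ∈ lowO hS, omega (vec x y u v s c (σ d)) (vec x y u v s c (σ d.symm)) =
      (∏ d ∈ univ.filter (fun d : G.Dart => c d.fst = false), gg x y u v s c d) *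
        omega (ww x y u v s c (σ (dd hS))) (ww x y u v s c (σ (dd hS).symm)) := by
  have hne : u ≠ v := hS.adj.ne
  have hdne : dd hS ≠ (dd hS).symm := by
    intro h
    have := congrArg (fun e : G.Dart => e.fst) h
    exact hne this
  obtain ⟨A, hA⟩ : ∃ A, A = univ.filter
      (fun d : G.Dart => c d.fst = false ∧ d ≠ dd hS ∧ d ≠ (dd hS).symm) := ⟨_, rfl⟩
  have hlow : univ.filter (fun d : G.Dart => c d.fst = false) =
      insert (dd hS) (insert (dd hS).symm A) := by
    ext d
    rw [hA]
    simp only [Finset.mem_insert, Finset.mem_filter, Finset.mem_univ, true_and]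
    constructor
    · intro h
      by_cases h1 : d = dd hS
      · exact Or.inl h1
      · by_cases h2 : d = (dd hS).symm
        · exact Or.inr (Or.inl h2)
        · exact Or.inr (Or.inr ⟨h, h1, h2⟩)
    · rintro (h | h | h)
      · rw [h]; exact hS.cu
      · rw [h]; exact hS.cv
      · exact h.1
  have hm1 : (dd hS).symm ∉ A := by rw [hA]; simp
  have hm0 : dd hS ∉ insert (dd hS).symm A := by
    rw [Finset.mem_insert, not_or]
    refine ⟨hdne, ?_⟩
    rw [hA]; simp
  have hm0' : dd hS ∉ A := fun h => hm0 (Finset.mem_insert_of_mem h)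
  -- the permutation permutes the darts of the lower classes
  have hperm : ∏ d ∈ univ.filter (fun d : G.Dart => c d.fst = false), gg x y u v s c d =
      ∏ d ∈ univ.filter (fun d : G.Dart => c d.fst = false), gg x y u v s c (σ d) := by
    symm
    refine Finset.prod_equiv σ (fun e => ?_) (fun e _ => rfl)
    simp only [mem_filter, mem_univ, true_and, hσ e]
  have hA' : ∀ d ∈ A, omega (vec x y u v s c (σ d)) (vec x y u v s c (σ d.symm)) =
      gg x y u v s c (σ d) := by
    intro d hd
    rw [hA, Finset.mem_filter] at hd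
    obtain ⟨-, hc, h1, h2⟩ := hd
    have h1' : ¬ (d.fst = u ∧ d.snd = v) := fun h => h1 ((eq_dd hS d).2 h)
    have h2' : ¬ (d.fst = v ∧ d.snd = u) := fun h => h2 ((eq_dd' hS d).2 h)
    obtain ⟨hs, hc'⟩ := hS.same _ _ d.adj h1' h2'
    have h3 : c d.snd = true := by
      rw [hc] at hc'
      cases hh : c d.snd
      · exact absurd hh.symm hc'
      · rfl
    unfold gg
    congr 1
    have hf : (σ d.symm).fst = d.snd := hσ d.symm
    have hu : ¬ (d.snd = u) := by
      rintro h; rw [h, hS.cu] at h3; exact absurd h3 (by decide)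
    have hv : ¬ (d.snd = v) := by
      rintro h; rw [h, hS.cv] at h3; exact absurd h3 (by decide)
    unfold vec chi'
    rw [hf, if_neg (fun h => hu h.1), if_neg (fun h => hv h.1), h3, hσ d, hs]
    simp
  have g0 := gg_ne (x := x) (y := y) hS (σ (dd hS)) (by rw [hσ]; exact hS.cu)
  have g1 := gg_ne (x := x) (y := y) hS (σ (dd hS).symm) (by rw [hσ]; exact hS.cv)
  rw [hperm, hlow, Finset.prod_insert hm0, Finset.prod_insert hm1]
  unfold lowO
  rw [← hA, Finset.prod_insert hm0', Finset.prod_congr rfl hA']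
  unfold ww
  rw [omega_smul]
  field_simp

theorem fibre_card (a : ℕ) (z : V) (h : (G.neighborSet z).ncard = a) :
    (univ.filter fun d : G.Dart => d.fst = z).card = a := by
  rw [← h, Set.ncard_eq_toFinset_card']
  have h1 := SimpleGraph.dart_fst_fiber_card_eq_degree G z
  unfold SimpleGraph.degree SimpleGraph.neighborFinset at h1
  convert h1

theorem sum_const_except (S : Finset G.Dart) (d0 : G.Dart) (hd : d0 ∈ S) (a : ℕ)
    (hS : S.card = a + 1) (F : G.Dart → ℂ) (A B : ℂ) (h0 : F d0 = A)
    (h1 : ∀ d ∈ S, d ≠ d0 → F d = B) : ∑ d ∈ S, F d = A + a * B := by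
  rw [← Finset.add_sum_erase S F hd, h0]
  congr 1
  rw [Finset.sum_congr rfl (fun d hd' => h1 d (Finset.mem_of_mem_erase hd')
    (Finset.ne_of_mem_erase hd')), Finset.sum_const, Finset.card_erase_of_mem hd, hS]
  simp

theorem double_sum' (hS : Sides G u v s c) (a b : ℕ)
    (ha : (G.neighborSet u).ncard = a + 1) (hb : (G.neighborSet v).ncard = b + 1)
    (hxy : ((a : ℝ) + 1 + x ^ 2) * ((b : ℝ) + 1 + y ^ 2) = a * b * x * y) :
    ∑ e ∈ univ.filter (fun e : G.Dart => e.fst = (dd hS).fst),
      ∑ e' ∈ univ.filter (fun e : G.Dart => e.fst = (dd hS).symm.fst),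
        omega (ww x y u v s c e) (ww x y u v s c e') = 0 := by
  have hne : u ≠ v := hS.adj.ne
  have hx2 : (1 : ℂ) + (x : ℂ) ^ 2 ≠ 0 := by
    have : (0 : ℝ) < 1 + x ^ 2 := by positivity
    exact_mod_cast this.ne'
  have hy2 : (1 : ℂ) + (y : ℂ) ^ 2 ≠ 0 := by
    have : (0 : ℝ) < 1 + y ^ 2 := by positivity
    exact_mod_cast this.ne'
  have hxyC : ((a : ℂ) + 1 + (x : ℂ) ^ 2) * ((b : ℂ) + 1 + (y : ℂ) ^ 2) = a * b * x * y := by
    exact_mod_cast congrArg Complex.ofReal hxy
  have hw0 : ww x y u v s c (dd hS) = ![1, 0] := by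
    unfold ww gg vec chi'
    rw [if_pos ⟨rfl, rfl⟩, show (dd hS).fst = u from rfl, hS.su]
    simp [omega]
  have hw1 : ww x y u v s c (dd hS).symm = ![0, 1] := by
    unfold ww gg vec chi'
    rw [if_neg (fun h => hne h.1.symm), if_pos ⟨rfl, rfl⟩,
      show (dd hS).symm.fst = v from rfl, hS.sv]
    simp [omega]
  have hwu : ∀ d : G.Dart, d.fst = u → d ≠ dd hS →
      ww x y u v s c d 0 = 1 / (1 + (x : ℂ) ^ 2) ∧ ww x y u v s c d 1 = x / (1 + (x : ℂ) ^ 2) := by
    intro d hd h1
    have h1' : ¬ (d.fst = u ∧ d.snd = v) := fun h => h1 ((eq_dd hS d).2 h)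
    have h2' : ¬ (d.fst = v ∧ d.snd = u) := fun h => hne (hd.symm.trans h.1)
    have hg : gg x y u v s c d = 1 + (x : ℂ) ^ 2 := by
      unfold gg vec chi'
      rw [if_neg h1', if_neg h2', hd, hS.su, hS.cu]
      simp only [omega, Bool.false_eq_true, ↓reduceIte, Matrix.cons_val_zero, Matrix.cons_val_one,
        Matrix.cons_val_fin_one]
      ring
    unfold ww
    rw [hg]
    unfold vec
    rw [if_neg h1', if_neg h2', hd, hS.su, hS.cu]
    simp only [Bool.false_eq_true, ↓reduceIte, Pi.smul_apply, smul_eq_mul, Matrix.cons_val_zero,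
      Matrix.cons_val_one, Matrix.cons_val_fin_one]
    constructor
    · field_simp
    · field_simp
  have hwv : ∀ d : G.Dart, d.fst = v → d ≠ (dd hS).symm →
      ww x y u v s c d 0 = y / (1 + (y : ℂ) ^ 2) ∧ ww x y u v s c d 1 = 1 / (1 + (y : ℂ) ^ 2) := by
    intro d hd h1
    have h1' : ¬ (d.fst = u ∧ d.snd = v) := fun h => hne (h.1.symm.trans hd)
    have h2' : ¬ (d.fst = v ∧ d.snd = u) := fun h => h1 ((eq_dd' hS d).2 h)
    have hg : gg x y u v s c d = 1 + (y : ℂ) ^ 2 := by
      unfold gg vec chi'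
      rw [if_neg h1', if_neg h2', hd, hS.sv, hS.cv]
      simp only [omega, Bool.false_eq_true, ↓reduceIte, Matrix.cons_val_zero, Matrix.cons_val_one,
        Matrix.cons_val_fin_one]
      ring
    unfold ww
    rw [hg]
    unfold vec
    rw [if_neg h1', if_neg h2', hd, hS.sv, hS.cv]
    simp only [Bool.false_eq_true, ↓reduceIte, Pi.smul_apply, smul_eq_mul, Matrix.cons_val_zero,
      Matrix.cons_val_one, Matrix.cons_val_fin_one]
    constructor
    · field_simp
    · field_simp
  have hd0 : (dd hS).fst = u := rfl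
  have hd1 : (dd hS).symm.fst = v := rfl
  rw [hd0, hd1]
  have a0 : ∑ e ∈ univ.filter (fun e : G.Dart => e.fst = u), ww x y u v s c e 0 =
      1 + a * (1 / (1 + (x : ℂ) ^ 2)) :=
    sum_const_except _ (dd hS) (by simp [dd]) a (fibre_card (a + 1) u ha) _ _ _
      (by rw [hw0]; simp) (fun d hd h => (hwu d (mem_filter.1 hd).2 h).1)
  have a1 : ∑ e ∈ univ.filter (fun e : G.Dart => e.fst = u), ww x y u v s c e 1 =
      0 + a * (x / (1 + (x : ℂ) ^ 2)) :=
    sum_const_except _ (dd hS) (by simp [dd]) a (fibre_card (a + 1) u ha) _ _ _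
      (by rw [hw0]; simp) (fun d hd h => (hwu d (mem_filter.1 hd).2 h).2)
  have b0 : ∑ e ∈ univ.filter (fun e : G.Dart => e.fst = v), ww x y u v s c e 0 =
      0 + b * (y / (1 + (y : ℂ) ^ 2)) :=
    sum_const_except _ (dd hS).symm (by simp [dd]) b (fibre_card (b + 1) v hb) _ _ _
      (by rw [hw1]; simp) (fun d hd h => (hwv d (mem_filter.1 hd).2 h).1)
  have b1 : ∑ e ∈ univ.filter (fun e : G.Dart => e.fst = v), ww x y u v s c e 1 =
      1 + b * (1 / (1 + (y : ℂ) ^ 2)) :=
    sum_const_except _ (dd hS).symm (by simp [dd]) b (fibre_card (b + 1) v hb) _ _ _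
      (by rw [hw1]; simp) (fun d hd h => (hwv d (mem_filter.1 hd).2 h).2)
  simp only [omega, Finset.sum_sub_distrib, ← Finset.mul_sum, ← Finset.sum_mul, a0, a1, b0, b1]
  field_simp
  linear_combination hxyC

theorem numerator_zero' (hS : Sides G u v s c) (hx : 0 < x) (hy : 0 < y) (a b : ℕ)
    (ha : (G.neighborSet u).ncard = a + 1) (hb : (G.neighborSet v).ncard = b + 1)
    (hxy : ((a : ℝ) + 1 + x ^ 2) * ((b : ℝ) + 1 + y ^ 2) = a * b * x * y)
    {ψ : G.Dart → Fin 2 → ℂ} (hψ : IsSpinorChoice G (pos x y u v s c) ψ) (Δ : Finset G.Dart)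
    (hΔ : IsOrientation G Δ) : numerator G ψ Δ = 0 := by
  obtain ⟨ε, hε⟩ := prod_orientation G (lowO hS) Δ (isOrientation_lowO hS) hΔ
  choose l hl using exists_scalar hS hx hy hψ
  have hP : ∀ σ, σ ∈ fibrePerms G ↔ ∀ d : G.Dart, (σ d).fst = d.fst := by
    intro σ
    simp [fibrePerms]
  obtain ⟨C, hC⟩ : ∃ C, C = ∏ d ∈ univ.filter (fun d : G.Dart => c d.fst = false),
    gg x y u v s c d := ⟨_, rfl⟩
  have h1 : numerator G ψ Δ = ∑ σ ∈ fibrePerms G, (ε * ((∏ d, l d) * C)) *
      omega (ww x y u v s c (σ (dd hS))) (ww x y u v s c (σ (dd hS).symm)) := by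
    refine Finset.sum_congr rfl fun σ hσ => ?_
    rw [hε (fun d => omega (ψ (σ d)) (ψ (σ d.symm))) (fun d => by
      rw [SimpleGraph.Dart.symm_symm]
      exact omega_antisymm _ _)]
    have h2 : ∏ d ∈ lowO hS, omega (ψ (σ d)) (ψ (σ d.symm)) =
        (∏ d ∈ lowO hS, (l (σ d) * l (σ d.symm))) *
          ∏ d ∈ lowO hS, omega (vec x y u v s c (σ d)) (vec x y u v s c (σ d.symm)) := by
      rw [← Finset.prod_mul_distrib]
      refine Finset.prod_congr rfl fun d _ => ?_
      rw [hl (σ d), hl (σ d.symm), omega_smul]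
    rw [h2, prod_formula' hS σ ((hP σ).1 hσ), ← hC,
      prod_orient (lowO hS) (isOrientation_lowO hS) (fun d => l (σ d)),
      Equiv.prod_comp σ l]
    ring
  rw [h1, ← Finset.mul_sum]
  have hne : u ≠ v := hS.adj.ne
  have h2 := sum_zero (fun d : G.Dart => d.fst) (fibrePerms G) hP (dd hS) (dd hS).symm
    hne (fun e e' => omega (ww x y u v s c e) (ww x y u v s c e'))
    (double_sum' hS a b ha hb hxy)
  rw [h2, mul_zero]

end

end Pool.Agent.Y356.GA
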