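import Pool.Agent.Y356.GA.Bridge2

/-!
# Zeros of the graph amplitude at bridges of bipartite graphs: conclusion
-/

set_option autoImplicit false

namespace Pool.Agent.Y356.GA

open Finset Pool.Agent.Results.MP_b525e0_co.DoubleStarZero

/-- the equation for the two directions -/
theorem exists_xy (a b : ℕ) (hab : 16 * ((a + 1) * (b + 1)) ≤ a ^ 2 * b ^ 2) :
    ∃ x y : ℝ, 0 < x ∧ 0 < y ∧
      ((a : ℝ) + 1 + x ^ 2) * ((b : ℝ) + 1 + y ^ 2) = a * b * x * y := by
  have habR : 16 * (((a : ℝ) + 1) * ((b : ℝ) + 1)) ≤ (a : ℝ) ^ 2 * (b : ℝ) ^ 2 := by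
    exact_mod_cast hab
  have ha1 : (0 : ℝ) < (a : ℝ) + 1 := by positivity
  obtain ⟨x, hx⟩ : ∃ x, x = Real.sqrt ((a : ℝ) + 1) := ⟨_, rfl⟩
  have hx0 : 0 < x := by rw [hx]; exact Real.sqrt_pos.2 ha1
  have hx2 : x ^ 2 = (a : ℝ) + 1 := by rw [hx]; exact Real.sq_sqrt ha1.le
  obtain ⟨t, ht⟩ : ∃ t, t = Real.sqrt ((a : ℝ) ^ 2 * (b : ℝ) ^ 2 -
    16 * (((a : ℝ) + 1) * ((b : ℝ) + 1))) := ⟨_, rfl⟩
  have ht0 : 0 ≤ t := by rw [ht]; exact Real.sqrt_nonneg _
  have ht2 : t ^ 2 = (a : ℝ) ^ 2 * (b : ℝ) ^ 2 - 16 * (((a : ℝ) + 1) * ((b : ℝ) + 1)) := by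
    rw [ht]; exact Real.sq_sqrt (by linarith)
  have hab0 : 0 < (a : ℝ) * b := by
    have h1 : 0 < (a : ℝ) ^ 2 * (b : ℝ) ^ 2 := by
      have : (0 : ℝ) < 16 * (((a : ℝ) + 1) * ((b : ℝ) + 1)) := by positivity
      linarith
    rcases Nat.eq_zero_or_pos a with h | h
    · rw [h] at h1; norm_num at h1
    · rcases Nat.eq_zero_or_pos b with h' | h'
      · rw [h'] at h1; norm_num at h1
      · positivity
  refine ⟨x, (a * b + t) / (4 * x), hx0, by positivity, ?_⟩
  obtain ⟨y, hy⟩ : ∃ y, y = ((a : ℝ) * b + t) / (4 * x) := ⟨_, rfl⟩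
  rw [← hy]
  have h1 : t = 4 * x * y - a * b := by rw [hy]; field_simp; ring
  rw [h1] at ht2
  have h2 : 16 * x ^ 2 * y ^ 2 - 8 * x * y * a * b = - 16 * (((a : ℝ) + 1) * ((b : ℝ) + 1)) := by
    linear_combination ht2
  rw [hx2] at h2 ⊢
  linear_combination (1 / 8) * h2

variable {V : Type} [Fintype V] {G : SimpleGraph V} {u v : V} {s c : V → Bool}

/-- there is a configuration with amplitude zero -/
def HasZero (G : SimpleGraph V) : Prop :=
  ∃ p : V → R3, Function.Injective p ∧ IsConfiguration G p ∧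
    (∃ ψ : G.Dart → Fin 2 → ℂ, IsSpinorChoice G p ψ) ∧
    (∃ Δ : Finset G.Dart, IsOrientation G Δ) ∧
    ∀ (ψ : G.Dart → Fin 2 → ℂ) (Δ : Finset G.Dart), IsSpinorChoice G p ψ → IsOrientation G Δ →
      denominator G ψ Δ ≠ 0 ∧ amplitude G ψ Δ = 0

theorem exists_spinorChoice {V : Type} (G : SimpleGraph V) (p : V → R3)
    (hp : IsConfiguration G p) : ∃ ψ : G.Dart → Fin 2 → ℂ, IsSpinorChoice G p ψ := by
  have h : ∀ d : G.Dart, ∃ ψ, IsSpinorOf (direction p d.fst d.snd) ψ := by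
    intro d
    apply exists_spinor
    have hne : p d.snd - p d.fst ≠ 0 := by
      rw [sub_ne_zero]
      exact fun h => hp _ _ d.adj h.symm
    rw [direction, norm_smul, norm_inv, norm_norm]
    exact inv_mul_cancel₀ (norm_ne_zero_iff.2 hne)
  choose ψ hψ using h
  exact ⟨ψ, hψ⟩

theorem denominator_ne {V : Type} (G : SimpleGraph V) (p : V → R3)
    (ψ : G.Dart → Fin 2 → ℂ) (Δ : Finset G.Dart) (hψ : IsSpinorChoice G p ψ) :
    denominator G ψ Δ ≠ 0 := by
  rw [denominator, Finset.prod_ne_zero_iff]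
  intro d _
  refine omega_ne_zero (hψ d) ?_
  rw [← direction_symm]
  exact hψ d.symm

theorem zero_of_sides (hS : Sides G u v s c) (a b : ℕ)
    (ha : (G.neighborSet u).ncard = a + 1) (hb : (G.neighborSet v).ncard = b + 1)
    (hab : 16 * ((a + 1) * (b + 1)) ≤ a ^ 2 * b ^ 2) : HasZero G := by
  obtain ⟨x, y, hx, hy, hxy⟩ := exists_xy a b hab
  have hinj := pos_injective hS hx hy
  have hconf : IsConfiguration G (pos x y u v s c) := fun i j h hc => h.ne (hinj hc)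
  refine ⟨pos x y u v s c, hinj, hconf, exists_spinorChoice G _ hconf,
    ⟨lowO hS, isOrientation_lowO hS⟩, ?_⟩
  intro ψ Δ hψ hΔ
  refine ⟨denominator_ne G _ ψ Δ hψ, ?_⟩
  rw [amplitude, numerator_zero' hS hx hy a b ha hb hxy hψ Δ hΔ, zero_div]

/-- a bridge of a bipartite graph gives two bipartite sides -/
theorem exists_sides {V : Type} {G : SimpleGraph V} {u v : V} (hcol : G.Colorable 2)
    (hadj : G.Adj u v) (hbr : G.IsBridge s(u, v)) : ∃ s c, Sides G u v s c := by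
  classical
  obtain ⟨κ⟩ := hcol
  rw [SimpleGraph.isBridge_iff] at hbr
  obtain ⟨s, hs⟩ : ∃ s : V → Bool, ∀ z, s z = decide (¬ (G.deleteEdges {s(u, v)}).Reachable u z) :=
    ⟨_, fun _ => rfl⟩
  have su : s u = false := by rw [hs]; simp
  have sv : s v = true := by rw [hs]; simpa using hbr
  refine ⟨s, fun z => decide (κ z ≠ κ (if s z then v else u)), hadj, su, sv, ?_, ?_, ?_⟩
  · simp [su]
  · simp [sv]
  · intro i j hij h1 h2
    have h3 : (G.deleteEdges {s(u, v)}).Adj i j := by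
      rw [SimpleGraph.deleteEdges_adj]
      refine ⟨hij, ?_⟩
      rw [Set.mem_singleton_iff, Sym2.eq_iff]
      rintro (h | h)
      · exact h1 h
      · exact h2 h
    have hR : (G.deleteEdges {s(u, v)}).Reachable u i ↔
        (G.deleteEdges {s(u, v)}).Reachable u j :=
      ⟨fun h => h.trans h3.reachable, fun h => h.trans h3.symm.reachable⟩
    have hsij : s i = s j := by rw [hs, hs]; simp only [hR]
    refine ⟨hsij, ?_⟩
    have hκ := κ.valid hij
    have key : ∀ p q r : Fin 2, p ≠ q → decide (p ≠ r) ≠ decide (q ≠ r) := by decide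
    simp only [hsij]
    exact key _ _ _ hκ

/-- **The bridge criterion.** -/
theorem bridge_criterion (hcol : G.Colorable 2) (hadj : G.Adj u v) (hbr : G.IsBridge s(u, v))
    (a b : ℕ) (ha : (G.neighborSet u).ncard = a + 1) (hb : (G.neighborSet v).ncard = b + 1)
    (hab : 16 * ((a + 1) * (b + 1)) ≤ a ^ 2 * b ^ 2) : HasZero G := by
  obtain ⟨s, c, hS⟩ := exists_sides hcol hadj hbr
  exact zero_of_sides hS a b ha hb hab

end Pool.Agent.Y356.GA
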