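import Pool.Agent.Y356.GA.Marcus

/-!
# The two components of the contraction of a symmetrised tensor
-/

set_option autoImplicit false

namespace Pool.Agent.Y356.GA

open Finset Polynomial ComplexConjugate

/-- the hermitian form -/
noncomputable def ip (a w : Fin 2 → ℂ) : ℂ := conj (a 0) * w 0 + conj (a 1) * w 1

/-- the antipodal vector -/
noncomputable def JJ (a : Fin 2 → ℂ) : Fin 2 → ℂ := ![- conj (a 1), conj (a 0)]

theorem ip_expand (P : Fin 2 → ℂ) (hP : ip P P = 1) (a w : Fin 2 → ℂ) :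
    ip a w = conj (ip P a) * ip P w + conj (ip (JJ P) a) * ip (JJ P) w := by
  unfold ip JJ at *
  simp only [Matrix.cons_val_zero, Matrix.cons_val_one, Matrix.cons_val_fin_one, map_neg,
    map_add, map_mul, Complex.conj_conj] at *
  linear_combination (-(conj (a 0) * w 0) - conj (a 1) * w 1) * hP

theorem ip_JJ_self (P : Fin 2 → ℂ) : ip (JJ P) P = 0 := by
  unfold ip JJ
  simp only [Matrix.cons_val_zero, Matrix.cons_val_one, Matrix.cons_val_fin_one, map_neg,
    Complex.conj_conj]
  ring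

theorem eq_zero_of_ip (P : Fin 2 → ℂ) (hP : ip P P = 1) (a : Fin 2 → ℂ) (h0 : ip P a = 0)
    (h1 : ip (JJ P) a = 0) : a 0 = 0 ∧ a 1 = 0 := by
  unfold ip JJ at *
  simp only [Matrix.cons_val_zero, Matrix.cons_val_one, Matrix.cons_val_fin_one, map_neg,
    Complex.conj_conj] at *
  constructor
  · linear_combination (-a 0) * hP + P 0 * h0 - conj (P 1) * h1
  · linear_combination (-a 1) * hP + P 1 * h0 + conj (P 0) * h1

variable {a : ℕ}

/-- the first component -/
noncomputable def al (A : Option (Fin a) → Fin 2 → ℂ) : ℂ :=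
  ∑ σ : Equiv.Perm (Option (Fin a)),
    ip (A none) (A (σ none)) * ∏ i : Fin a, ip (A (some i)) (A (σ (some i)))

/-- the second component -/
noncomputable def be (A : Option (Fin a) → Fin 2 → ℂ) : ℂ :=
  ∑ σ : Equiv.Perm (Option (Fin a)),
    ip (JJ (A none)) (A (σ none)) * ∏ i : Fin a, ip (A (some i)) (A (σ (some i)))

theorem coeff_conj {ι : Type} [Fintype ι] [DecidableEq ι] (f h : ι → ℂ) (j : ℕ) :
    (poly (fun i => conj (f i)) (fun i => conj (h i))).coeff j = conj ((poly f h).coeff j) := by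
  rw [coeff_poly, coeff_poly, map_sum]
  refine Finset.sum_congr rfl fun S _ => ?_
  unfold eS
  rw [map_mul, map_prod, map_prod]

theorem core (A : Option (Fin a) → Fin 2 → ℂ) (hP : ip (A none) (A none) = 1)
    (hA : ∀ i, ip (A (some i)) (A (some i)) = 1) :
    ∃ t : ℝ, 1 ≤ t ∧ al A = t ∧ ‖be A‖ ≤ (a : ℝ) / (2 * Real.sqrt ((a : ℝ) + 1)) * t := by
  obtain ⟨P, hPdef⟩ : ∃ P, P = A none := ⟨_, rfl⟩
  rw [← hPdef] at hP
  obtain ⟨x, hx⟩ : ∃ x : Option (Fin a) → ℂ, ∀ k, x k = ip P (A k) := ⟨_, fun _ => rfl⟩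
  obtain ⟨y, hy⟩ : ∃ y : Option (Fin a) → ℂ, ∀ k, y k = ip (JJ P) (A k) := ⟨_, fun _ => rfl⟩
  have hx0 : x none = 1 := by rw [hx, ← hPdef, hP]
  have hy0 : y none = 0 := by rw [hy, ← hPdef, ip_JJ_self]
  have hip : ∀ k l, ip (A k) (A l) = conj (x k) * x l + conj (y k) * y l := by
    intro k l
    rw [ip_expand P hP, hx, hx, hy, hy]
  obtain ⟨Q, hQ⟩ : ∃ Q, Q = poly (fun i : Fin a => x (some i)) (fun i => y (some i)) := ⟨_, rfl⟩
  obtain ⟨Q', hQ'⟩ : ∃ Q', Q' = poly (fun i : Fin a => conj (x (some i)))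
    (fun i => conj (y (some i))) := ⟨_, rfl⟩
  have hQc : ∀ j, Q'.coeff j = conj (Q.coeff j) := by
    intro j
    rw [hQ, hQ']
    exact coeff_conj _ _ j
  have hQz : ∀ j, a < j → Q.coeff j = 0 := by
    intro j hj
    rw [hQ, coeff_poly, Finset.powersetCard_eq_empty.2 (by simpa using hj), Finset.sum_empty]
  -- the polynomials
  have p1 : poly x y = X * Q := by
    rw [hQ]
    unfold poly
    rw [Fintype.prod_option, hx0, hy0]
    simp
  have p2 : poly (fun k => conj (x k)) (fun k => conj (y k)) = X * Q' := by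
    rw [hQ']
    unfold poly
    rw [Fintype.prod_option]
    simp only [hx0, hy0]
    simp
  obtain ⟨f, hf⟩ : ∃ f : Option (Fin a) → ℂ, f = fun k => k.elim 0 (fun i => conj (x (some i))) :=
    ⟨_, rfl⟩
  obtain ⟨h, hh⟩ : ∃ h : Option (Fin a) → ℂ, h = fun k => k.elim 1 (fun i => conj (y (some i))) :=
    ⟨_, rfl⟩
  have p3 : poly f h = Q' := by
    rw [hQ', hf, hh]
    unfold poly
    rw [Fintype.prod_option]
    simp
  have hal : al A = ((∑ k ∈ range (a + 1), WW a k * ‖Q.coeff k‖ ^ 2 : ℝ) : ℂ) := by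
    have h1 : al A = ∑ σ : Equiv.Perm (Option (Fin a)),
        ∏ k, (conj (x k) * x (σ k) + conj (y k) * y (σ k)) := by
      unfold al
      refine Finset.sum_congr rfl fun σ _ => ?_
      rw [Fintype.prod_option, ← hip]
      congr 1
      exact Finset.prod_congr rfl fun i _ => hip _ _
    rw [h1, perm_identity, p1, p2, Fintype.card_option, Fintype.card_fin,
      Finset.sum_range_succ']
    simp only [Polynomial.coeff_X_mul, Polynomial.coeff_X_mul_zero, mul_zero, add_zero]
    rw [Complex.ofReal_sum]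
    refine Finset.sum_congr rfl fun k _ => ?_
    rw [hQc]
    unfold WW
    have e1 : a + 1 - (k + 1) = a - k := by omega
    rw [e1]
    push_cast
    rw [Complex.conj_mul']
  have hbe : be A = ∑ k ∈ range a, (WW a k : ℂ) * (conj (Q.coeff (k + 1)) * Q.coeff k) := by
    have h1 : be A = ∑ σ : Equiv.Perm (Option (Fin a)),
        ∏ k, (f k * x (σ k) + h k * y (σ k)) := by
      unfold be
      refine Finset.sum_congr rfl fun σ _ => ?_
      rw [Fintype.prod_option, hf, hh]
      simp only [Option.elim_none, Option.elim_some, zero_mul, one_mul, zero_add]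
      rw [hy, ← hPdef]
      congr 1
      exact Finset.prod_congr rfl fun i _ => hip _ _
    rw [h1, perm_identity, p1, p3, Fintype.card_option, Fintype.card_fin,
      Finset.sum_range_succ']
    simp only [Polynomial.coeff_X_mul, Polynomial.coeff_X_mul_zero, mul_zero, add_zero]
    rw [Finset.sum_range_succ, hQc (a + 1), hQz (a + 1) (Nat.lt_succ_self a)]
    simp only [map_zero, zero_mul, mul_zero, add_zero]
    refine Finset.sum_congr rfl fun k _ => ?_
    rw [hQc]
    unfold WW
    have e1 : a + 1 - (k + 1) = a - k := by omega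
    rw [e1]
    push_cast
    ring
  have hWW : ∀ k, 0 < WW a k := by
    intro k
    unfold WW
    positivity
  have hunit : ∀ i : Fin a, ‖x (some i)‖ ^ 2 + ‖y (some i)‖ ^ 2 = 1 := by
    intro i
    have h1 := hip (some i) (some i)
    rw [hA i, Complex.conj_mul', Complex.conj_mul'] at h1
    exact_mod_cast h1.symm
  have hone : 1 ≤ ∑ k ∈ range (a + 1), WW a k * ‖Q.coeff k‖ ^ 2 := by
    have h1 := marcus a (fun i => x (some i)) (fun i => y (some i)) hunit
    rw [← hQ] at h1
    refine h1.trans (Finset.sum_le_sum fun k _ => ?_)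
    exact mul_le_mul_of_nonneg_right (VV_le_WW a k) (by positivity)
  refine ⟨_, hone, hal, ?_⟩
  refine le_trans ?_ (weight_ineq a fun k => ‖Q.coeff k‖)
  rw [hbe]
  refine (norm_sum_le _ _).trans (le_of_eq ?_)
  refine Finset.sum_congr rfl fun k _ => ?_
  rw [norm_mul, norm_mul, Complex.norm_real, Real.norm_of_nonneg (hWW k).le, RCLike.norm_conj]

end Pool.Agent.Y356.GA
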