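import Pool.Agent.Y356.GA.Bridge3

/-!
# The double stars and their fibre permutations
-/

set_option autoImplicit false

namespace Pool.Agent.Y356.GA

open Finset Pool.Agent.Results.MP_b525e0_co.DoubleStarZero

/-- adjacency in the double star: the two centres are `inl none` and `inr none` -/
def dsAdj (a b : ℕ) : Option (Fin a) ⊕ Option (Fin b) → Option (Fin a) ⊕ Option (Fin b) → Prop
  | .inl none, .inr none => True
  | .inr none, .inl none => True
  | .inl none, .inl (some _) => True
  | .inl (some _), .inl none => True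
  | .inr none, .inr (some _) => True
  | .inr (some _), .inr none => True
  | _, _ => False

/-- The double star: the centres `inl none` and `inr none` are adjacent, the leaves
`inl (some i)` are adjacent to `inl none`, the leaves `inr (some j)` to `inr none`. -/
def doubleStarGraph (a b : ℕ) : SimpleGraph (Option (Fin a) ⊕ Option (Fin b)) where
  Adj := dsAdj a b
  symm := ⟨by
    rintro ((_ | i) | (_ | i)) ((_ | j) | (_ | j)) h <;> simp_all [dsAdj]⟩
  loopless := ⟨by
    rintro ((_ | i) | (_ | i)) h <;> simp_all [dsAdj]⟩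

variable {a b : ℕ}

/-- the darts at the first centre -/
def out0 : Option (Fin a) → (doubleStarGraph a b).Dart
  | none => ⟨(.inl none, .inr none), trivial⟩
  | some i => ⟨(.inl none, .inl (some i)), trivial⟩

/-- the darts at the second centre -/
def out1 : Option (Fin b) → (doubleStarGraph a b).Dart
  | none => ⟨(.inr none, .inl none), trivial⟩
  | some j => ⟨(.inr none, .inr (some j)), trivial⟩

/-- the darts at the leaves of the first centre -/
def lf0 (i : Fin a) : (doubleStarGraph a b).Dart := ⟨(.inl (some i), .inl none), trivial⟩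

/-- the darts at the leaves of the second centre -/
def lf1 (j : Fin b) : (doubleStarGraph a b).Dart := ⟨(.inr (some j), .inr none), trivial⟩

theorem out0_fst (k : Option (Fin a)) : (out0 (b := b) k).fst = .inl none := by
  cases k <;> rfl

theorem out1_fst (k : Option (Fin b)) : (out1 (a := a) k).fst = .inr none := by
  cases k <;> rfl

theorem out0_inj : Function.Injective (out0 (a := a) (b := b)) := by
  intro k l h
  have h2 : (out0 (b := b) k).snd = (out0 (b := b) l).snd := by rw [h]
  clear h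
  rcases k with _ | k <;> rcases l with _ | l
  · rfl
  · exact absurd h2 (by simp [out0])
  · exact absurd h2 (by simp [out0])
  · exact Sum.inl_injective h2

theorem out1_inj : Function.Injective (out1 (a := a) (b := b)) := by
  intro k l h
  have h2 : (out1 (a := a) k).snd = (out1 (a := a) l).snd := by rw [h]
  clear h
  rcases k with _ | k <;> rcases l with _ | l
  · rfl
  · exact absurd h2 (by simp [out1])
  · exact absurd h2 (by simp [out1])
  · exact Sum.inr_injective h2

/-- all darts -/
theorem dart_cases (d : (doubleStarGraph a b).Dart) :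
    (∃ k, d = out0 k) ∨ (∃ k, d = out1 k) ∨ (∃ i, d = lf0 i) ∨ (∃ j, d = lf1 j) := by
  obtain ⟨⟨x, y⟩, h⟩ := d
  rcases x with (_ | i) | (_ | i) <;> rcases y with (_ | j) | (_ | j)
  · exact h.elim
  · exact Or.inl ⟨some j, rfl⟩
  · exact Or.inl ⟨none, rfl⟩
  · exact h.elim
  · exact Or.inr (Or.inr (Or.inl ⟨i, rfl⟩))
  · exact h.elim
  · exact h.elim
  · exact h.elim
  · exact Or.inr (Or.inl ⟨none, rfl⟩)
  · exact h.elim
  · exact h.elim
  · exact Or.inr (Or.inl ⟨some j, rfl⟩)
  · exact h.elim
  · exact h.elim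
  · exact Or.inr (Or.inr (Or.inr ⟨i, rfl⟩))
  · exact h.elim

theorem fst0 {d : (doubleStarGraph a b).Dart} (h : d.fst = .inl none) : ∃ k, d = out0 k := by
  rcases dart_cases d with ⟨k, rfl⟩ | ⟨k, rfl⟩ | ⟨i, rfl⟩ | ⟨j, rfl⟩
  · exact ⟨k, rfl⟩
  · rw [out1_fst] at h; simp at h
  · simp [lf0] at h
  · simp [lf1] at h

theorem fst1 {d : (doubleStarGraph a b).Dart} (h : d.fst = .inr none) : ∃ k, d = out1 k := by
  rcases dart_cases d with ⟨k, rfl⟩ | ⟨k, rfl⟩ | ⟨i, rfl⟩ | ⟨j, rfl⟩
  · rw [out0_fst] at h; simp at h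
  · exact ⟨k, rfl⟩
  · simp [lf0] at h
  · simp [lf1] at h

theorem fst2 {d : (doubleStarGraph a b).Dart} {i : Fin a} (h : d.fst = .inl (some i)) :
    d = lf0 i := by
  rcases dart_cases d with ⟨k, rfl⟩ | ⟨k, rfl⟩ | ⟨i', rfl⟩ | ⟨j, rfl⟩
  · rw [out0_fst] at h; simp at h
  · rw [out1_fst] at h; simp at h
  · simp only [lf0, Sum.inl.injEq, Option.some.injEq] at h
    rw [h]
  · simp [lf1] at h

theorem fst3 {d : (doubleStarGraph a b).Dart} {j : Fin b} (h : d.fst = .inr (some j)) :
    d = lf1 j := by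
  rcases dart_cases d with ⟨k, rfl⟩ | ⟨k, rfl⟩ | ⟨i', rfl⟩ | ⟨j', rfl⟩
  · rw [out0_fst] at h; simp at h
  · rw [out1_fst] at h; simp at h
  · simp [lf0] at h
  · simp only [lf1, Sum.inr.injEq, Option.some.injEq] at h
    rw [h]

/-- the map on darts given by two permutations -/
def mapD (σ : Option (Fin a) → Option (Fin a)) (τ : Option (Fin b) → Option (Fin b))
    (d : (doubleStarGraph a b).Dart) : (doubleStarGraph a b).Dart :=
  match d with
  | ⟨(.inl none, .inr none), _⟩ => out0 (σ none)
  | ⟨(.inl none, .inl (some i)), _⟩ => out0 (σ (some i))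
  | ⟨(.inr none, .inl none), _⟩ => out1 (τ none)
  | ⟨(.inr none, .inr (some j)), _⟩ => out1 (τ (some j))
  | d => d

theorem mapD_out0 (σ : Option (Fin a) → Option (Fin a)) (τ : Option (Fin b) → Option (Fin b))
    (k : Option (Fin a)) : mapD σ τ (out0 k) = out0 (σ k) := by
  cases k <;> rfl

theorem mapD_out1 (σ : Option (Fin a) → Option (Fin a)) (τ : Option (Fin b) → Option (Fin b))
    (k : Option (Fin b)) : mapD σ τ (out1 k) = out1 (τ k) := by
  cases k <;> rfl

theorem mapD_lf0 (σ : Option (Fin a) → Option (Fin a)) (τ : Option (Fin b) → Option (Fin b))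
    (i : Fin a) : mapD σ τ (lf0 i) = lf0 i := rfl

theorem mapD_lf1 (σ : Option (Fin a) → Option (Fin a)) (τ : Option (Fin b) → Option (Fin b))
    (j : Fin b) : mapD σ τ (lf1 j) = lf1 j := rfl

theorem mapD_comp (σ σ' : Option (Fin a) → Option (Fin a)) (τ τ' : Option (Fin b) → Option (Fin b))
    (h : ∀ k, σ (σ' k) = k) (h' : ∀ k, τ (τ' k) = k) (d : (doubleStarGraph a b).Dart) :
    mapD σ τ (mapD σ' τ' d) = d := by
  rcases dart_cases d with ⟨k, rfl⟩ | ⟨k, rfl⟩ | ⟨i', rfl⟩ | ⟨j', rfl⟩
  · rw [mapD_out0, mapD_out0, h]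
  · rw [mapD_out1, mapD_out1, h']
  · rw [mapD_lf0, mapD_lf0]
  · rw [mapD_lf1, mapD_lf1]

/-- the permutation of the darts given by two permutations -/
def TT (p : Equiv.Perm (Option (Fin a)) × Equiv.Perm (Option (Fin b))) :
    Equiv.Perm (doubleStarGraph a b).Dart where
  toFun := mapD p.1 p.2
  invFun := mapD p.1.symm p.2.symm
  left_inv := mapD_comp _ _ _ _ p.1.symm_apply_apply p.2.symm_apply_apply
  right_inv := mapD_comp _ _ _ _ p.1.apply_symm_apply p.2.apply_symm_apply

variable (p : Equiv.Perm (Option (Fin a)) × Equiv.Perm (Option (Fin b)))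

theorem TT_out0 (k : Option (Fin a)) : TT p (out0 k) = out0 (p.1 k) := mapD_out0 _ _ k

theorem TT_out1 (k : Option (Fin b)) : TT p (out1 k) = out1 (p.2 k) := mapD_out1 _ _ k

theorem TT_lf0 (i : Fin a) : TT p (lf0 i) = lf0 i := rfl

theorem TT_lf1 (j : Fin b) : TT p (lf1 j) = lf1 j := rfl

theorem mem_fibre {V : Type} [Fintype V] (G : SimpleGraph V) (σ : Equiv.Perm G.Dart) :
    σ ∈ fibrePerms G ↔ ∀ d, (σ d).fst = d.fst := by
  classical
  simp only [fibrePerms, mem_filter, mem_univ, true_and]

theorem sum_fibre (F : Equiv.Perm (doubleStarGraph a b).Dart → ℂ) :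
    ∑ σ ∈ fibrePerms (doubleStarGraph a b), F σ =
      ∑ p : Equiv.Perm (Option (Fin a)) × Equiv.Perm (Option (Fin b)), F (TT p) := by
  classical
  symm
  refine Finset.sum_bij (fun p _ => TT p) ?_ ?_ ?_ ?_
  · intro p _
    rw [mem_fibre]
    intro d
    rcases dart_cases d with ⟨k, rfl⟩ | ⟨k, rfl⟩ | ⟨i', rfl⟩ | ⟨j', rfl⟩
    · rw [TT_out0, out0_fst, out0_fst]
    · rw [TT_out1, out1_fst, out1_fst]
    · rw [TT_lf0]
    · rw [TT_lf1]
  · intro p _ q _ h
    have h0 : ∀ k, p.1 k = q.1 k := by
      intro k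
      have := congrArg (fun T : Equiv.Perm (doubleStarGraph a b).Dart => T (out0 k)) h
      simp only [TT_out0] at this
      exact out0_inj this
    have h1 : ∀ k, p.2 k = q.2 k := by
      intro k
      have := congrArg (fun T : Equiv.Perm (doubleStarGraph a b).Dart => T (out1 k)) h
      simp only [TT_out1] at this
      exact out1_inj this
    exact Prod.ext (Equiv.ext h0) (Equiv.ext h1)
  · intro σ hσ
    rw [mem_fibre] at hσ
    have h0 : ∀ k, ∃ k', σ (out0 k) = out0 k' := fun k =>
      fst0 ((hσ _).trans (out0_fst k))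
    have h1 : ∀ k, ∃ k', σ (out1 k) = out1 k' := fun k =>
      fst1 ((hσ _).trans (out1_fst k))
    choose f0 hf0 using h0
    choose f1 hf1 using h1
    have i0 : Function.Injective f0 := by
      intro k l h
      apply out0_inj
      apply σ.injective
      rw [hf0, hf0, h]
    have i1 : Function.Injective f1 := by
      intro k l h
      apply out1_inj
      apply σ.injective
      rw [hf1, hf1, h]
    refine ⟨(Equiv.ofBijective f0 (Finite.injective_iff_bijective.1 i0),
      Equiv.ofBijective f1 (Finite.injective_iff_bijective.1 i1)), mem_univ _, ?_⟩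
    apply Equiv.ext
    intro d
    rcases dart_cases d with ⟨k, rfl⟩ | ⟨k, rfl⟩ | ⟨i', rfl⟩ | ⟨j', rfl⟩
    · rw [TT_out0, hf0]; rfl
    · rw [TT_out1, hf1]; rfl
    · rw [TT_lf0]
      exact (fst2 (hσ _)).symm
    · rw [TT_lf1]
      exact (fst3 (hσ _)).symm
  · intro p _
    rfl

/-- one dart of every edge -/
def D0 : Option (Fin a) ⊕ Fin b ↪ (doubleStarGraph a b).Dart :=
  ⟨Sum.elim out0 (fun j => out1 (some j)), by
    rintro (k | k) (l | l) h
    · exact congrArg Sum.inl (out0_inj h)
    · exact absurd (congrArg (fun d : (doubleStarGraph a b).Dart => d.fst) h) (by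
        simp [out0_fst, out1_fst])
    · exact absurd (congrArg (fun d : (doubleStarGraph a b).Dart => d.fst) h) (by
        simp [out0_fst, out1_fst])
    · exact congrArg Sum.inr (Option.some_injective _ (out1_inj h))⟩

theorem orient_D0 : IsOrientation (doubleStarGraph a b) (univ.map D0) := by
  have hm : ∀ d, d ∈ univ.map (D0 (a := a) (b := b)) ↔
      (∃ k, out0 k = d) ∨ ∃ j, out1 (some j) = d := by
    intro d
    rw [mem_map]
    constructor
    · rintro ⟨k | j, -, h⟩
      · exact Or.inl ⟨k, h⟩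
      · exact Or.inr ⟨j, h⟩
    · rintro (⟨k, h⟩ | ⟨j, h⟩)
      · exact ⟨Sum.inl k, mem_univ _, h⟩
      · exact ⟨Sum.inr j, mem_univ _, h⟩
  have n0 : ∀ i : Fin a, lf0 (b := b) i ∉ univ.map (D0 (a := a) (b := b)) := by
    intro i
    rw [hm]
    rintro (⟨k, h⟩ | ⟨j, h⟩)
    · have := congrArg (fun d : (doubleStarGraph a b).Dart => d.fst) h
      simp [out0_fst, lf0] at this
    · have := congrArg (fun d : (doubleStarGraph a b).Dart => d.fst) h
      simp [out1_fst, lf0] at this
  have n1 : ∀ j : Fin b, lf1 (a := a) j ∉ univ.map (D0 (a := a) (b := b)) := by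
    intro i
    rw [hm]
    rintro (⟨k, h⟩ | ⟨j, h⟩)
    · have := congrArg (fun d : (doubleStarGraph a b).Dart => d.fst) h
      simp [out0_fst, lf1] at this
    · have := congrArg (fun d : (doubleStarGraph a b).Dart => d.fst) h
      simp [out1_fst, lf1] at this
  have n2 : out1 none ∉ univ.map (D0 (a := a) (b := b)) := by
    rw [hm]
    rintro (⟨k, h⟩ | ⟨j, h⟩)
    · have := congrArg (fun d : (doubleStarGraph a b).Dart => d.fst) h
      simp [out0_fst, out1_fst] at this
    · exact absurd (out1_inj h) (by simp)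
  have y0 : ∀ k, out0 k ∈ univ.map (D0 (a := a) (b := b)) := fun k => (hm _).2 (Or.inl ⟨k, rfl⟩)
  have y1 : ∀ j, out1 (some j) ∈ univ.map (D0 (a := a) (b := b)) :=
    fun j => (hm _).2 (Or.inr ⟨j, rfl⟩)
  intro d
  rcases dart_cases d with ⟨k, rfl⟩ | ⟨k, rfl⟩ | ⟨i', rfl⟩ | ⟨j', rfl⟩
  · refine Or.inl ⟨y0 k, ?_⟩
    cases k with
    | none => exact n2
    | some i => exact n0 i
  · cases k with
    | none => exact Or.inr ⟨n2, y0 none⟩
    | some j => exact Or.inl ⟨y1 j, n1 j⟩
  · exact Or.inr ⟨n0 i', y0 (some i')⟩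
  · exact Or.inr ⟨n1 j', y1 j'⟩

/-- the numerator for this orientation -/
theorem numerator_D0 (ψ : (doubleStarGraph a b).Dart → Fin 2 → ℂ) :
    numerator (doubleStarGraph a b) ψ (univ.map D0) =
      ∑ p : Equiv.Perm (Option (Fin a)) × Equiv.Perm (Option (Fin b)),
        omega (ψ (out0 (p.1 none))) (ψ (out1 (p.2 none))) *
          (∏ i : Fin a, omega (ψ (out0 (p.1 (some i)))) (ψ (lf0 i))) *
          ∏ j : Fin b, omega (ψ (out1 (p.2 (some j)))) (ψ (lf1 j)) := by
  rw [numerator, sum_fibre]
  refine Finset.sum_congr rfl fun p _ => ?_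
  rw [Finset.prod_map, Fintype.prod_sum_type, Fintype.prod_option]
  have e0 : ∀ k, D0 (a := a) (b := b) (Sum.inl k) = out0 k := fun _ => rfl
  have e1 : ∀ j, D0 (a := a) (b := b) (Sum.inr j) = out1 (some j) := fun _ => rfl
  have s0 : (out0 (a := a) (b := b) none).symm = out1 none := rfl
  have s1 : ∀ i, (out0 (a := a) (b := b) (some i)).symm = lf0 i := fun _ => rfl
  have s2 : ∀ j, (out1 (a := a) (b := b) (some j)).symm = lf1 j := fun _ => rfl
  simp only [e0, e1, s0, s1, s2, TT_out0, TT_out1, TT_lf0, TT_lf1]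

/-! ### The two sides -/

theorem sides_dstar : Sides (doubleStarGraph a b) (.inl none) (.inr none)
    (fun z => z.isRight) (fun z => z.elim Option.isSome Option.isSome) where
  adj := trivial
  su := rfl
  sv := rfl
  cu := rfl
  cv := rfl
  same := by
    rintro ((_ | i) | (_ | i)) ((_ | j) | (_ | j)) h h1 h2 <;>
      first
        | exact h.elim
        | exact (h1 ⟨rfl, rfl⟩).elim
        | exact (h2 ⟨rfl, rfl⟩).elim
        | exact ⟨rfl, by simp⟩

theorem ncard0 : ((doubleStarGraph a b).neighborSet (.inl none)).ncard = a + 1 := by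
  have h : (doubleStarGraph a b).neighborSet (.inl none) =
      Set.range fun k : Option (Fin a) => (out0 (b := b) k).snd := by
    ext z
    rw [SimpleGraph.mem_neighborSet]
    constructor
    · intro hz
      obtain ⟨k, hk⟩ := fst0 (d := ⟨(.inl none, z), hz⟩) rfl
      refine ⟨k, ?_⟩
      simp only
      rw [← hk]
    · rintro ⟨k, rfl⟩
      have := (out0 (b := b) k).adj
      rwa [out0_fst] at this
  rw [h, ← Set.image_univ, Set.ncard_image_of_injective _ ?_, Set.ncard_univ,
    Nat.card_eq_fintype_card, Fintype.card_option, Fintype.card_fin]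
  intro k l hkl
  rcases k with _ | k <;> rcases l with _ | l <;> simp_all [out0]

theorem ncard1 : ((doubleStarGraph a b).neighborSet (.inr none)).ncard = b + 1 := by
  have h : (doubleStarGraph a b).neighborSet (.inr none) =
      Set.range fun k : Option (Fin b) => (out1 (a := a) k).snd := by
    ext z
    rw [SimpleGraph.mem_neighborSet]
    constructor
    · intro hz
      obtain ⟨k, hk⟩ := fst1 (d := ⟨(.inr none, z), hz⟩) rfl
      refine ⟨k, ?_⟩
      simp only
      rw [← hk]
    · rintro ⟨k, rfl⟩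
      have := (out1 (a := a) k).adj
      rwa [out1_fst] at this
  rw [h, ← Set.image_univ, Set.ncard_image_of_injective _ ?_, Set.ncard_univ,
    Nat.card_eq_fintype_card, Fintype.card_option, Fintype.card_fin]
  intro k l hkl
  rcases k with _ | k <;> rcases l with _ | l <;> simp_all [out1]

theorem zero_dstar (hab : 16 * ((a + 1) * (b + 1)) ≤ a ^ 2 * b ^ 2) :
    HasZero (doubleStarGraph a b) :=
  zero_of_sides sides_dstar a b ncard0 ncard1 hab

end Pool.Agent.Y356.GA
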