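import Pool.Agent.Y356.GA.Spin
import Pool.Agent.Y356.GA.Star

/-!
# The real part of the amplitude of a double star
-/

set_option autoImplicit false

namespace Pool.Agent.Y356.GA

open Finset ComplexConjugate Pool.Agent.Results.MP_b525e0_co.DoubleStarZero

variable {a b : ℕ}

theorem sum_eq_al_be (A : Option (Fin a) → Fin 2 → ℂ) (B : Option (Fin b) → Fin 2 → ℂ)
    (c c' : ℂ) (c0 : Fin a → ℂ) (c1 : Fin b → ℂ) :
    ∑ p : Equiv.Perm (Option (Fin a)) × Equiv.Perm (Option (Fin b)),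
      (c * (ip (A none) (A (p.1 none)) * ip (B none) (B (p.2 none))) +
        c' * (ip (JJ (A none)) (A (p.1 none)) * ip (JJ (B none)) (B (p.2 none)))) *
       (∏ i, (c0 i * ip (A (some i)) (A (p.1 (some i))))) *
        ∏ j, (c1 j * ip (B (some j)) (B (p.2 (some j)))) =
    (∏ i, c0 i) * (∏ j, c1 j) * (c * (al A * al B) + c' * (be A * be B)) := by
  rw [Fintype.sum_prod_type]
  unfold al be
  rw [Finset.sum_mul_sum, Finset.sum_mul_sum]
  simp only [Finset.mul_sum, ← Finset.sum_add_distrib]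
  refine Finset.sum_congr rfl fun σ _ => Finset.sum_congr rfl fun τ _ => ?_
  rw [Finset.prod_mul_distrib, Finset.prod_mul_distrib]
  ring

/-- the bound for the product of the two ratios -/
noncomputable def rho (a b : ℕ) : ℝ :=
  (a : ℝ) * b / (4 * Real.sqrt (((a : ℝ) + 1) * ((b : ℝ) + 1)))

theorem rho_eq (a b : ℕ) : ((a : ℝ) / (2 * Real.sqrt ((a : ℝ) + 1))) *
    ((b : ℝ) / (2 * Real.sqrt ((b : ℝ) + 1))) = rho a b := by
  have ha : (0 : ℝ) ≤ (a : ℝ) + 1 := by positivity
  rw [rho, div_mul_div_comm, Real.sqrt_mul ha]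
  congr 1
  ring

theorem rho_lt (hab : a ^ 2 * b ^ 2 < 16 * ((a + 1) * (b + 1))) : rho a b < 1 := by
  have habR : (a : ℝ) ^ 2 * (b : ℝ) ^ 2 < 16 * (((a : ℝ) + 1) * ((b : ℝ) + 1)) := by
    exact_mod_cast hab
  have hpos : (0 : ℝ) < ((a : ℝ) + 1) * ((b : ℝ) + 1) := by positivity
  have sa := Real.sqrt_pos.2 hpos
  have sa2 := Real.sq_sqrt hpos.le
  rw [rho, div_lt_one (by positivity)]
  refine lt_of_pow_lt_pow_left₀ 2 (by positivity) ?_
  calc ((a : ℝ) * b) ^ 2 = (a : ℝ) ^ 2 * (b : ℝ) ^ 2 := by ring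
    _ < 16 * (((a : ℝ) + 1) * ((b : ℝ) + 1)) := habR
    _ = 16 * Real.sqrt (((a : ℝ) + 1) * ((b : ℝ) + 1)) ^ 2 := by rw [sa2]
    _ = _ := by ring

theorem combination_re (h : rho a b ≤ 1)
    (A : Option (Fin a) → Fin 2 → ℂ) (B : Option (Fin b) → Fin 2 → ℂ)
    (hA0 : ip (A none) (A none) = 1) (hB0 : ip (B none) (B none) = 1)
    (hA : ∀ i, ip (A (some i)) (A (some i)) = 1) (hB : ∀ j, ip (B (some j)) (B (some j)) = 1)
    (z : ℂ) (hz : ‖z‖ = 1) :
    1 - rho a b ≤ (al A * al B + z * (be A * be B)).re := by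
  obtain ⟨t, t1, a1, a2⟩ := core A hA0 hA
  obtain ⟨s, s1, b1, b2⟩ := core B hB0 hB
  rw [a1, b1, Complex.add_re, ← Complex.ofReal_mul, Complex.ofReal_re]
  have h1 : -‖z * (be A * be B)‖ ≤ (z * (be A * be B)).re :=
    (abs_le.1 (Complex.abs_re_le_norm _)).1
  rw [norm_mul, norm_mul, hz, one_mul] at h1
  have h2 : ‖be A‖ * ‖be B‖ ≤ rho a b * (t * s) := by
    rw [← rho_eq]
    refine (mul_le_mul a2 b2 (norm_nonneg _) ((norm_nonneg _).trans a2)).trans (le_of_eq ?_)
    ring
  have h3 : 1 ≤ t * s := by nlinarith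
  have h4 : (1 - rho a b) * 1 ≤ (1 - rho a b) * (t * s) :=
    mul_le_mul_of_nonneg_left h3 (by linarith)
  linarith

theorem opposite {V : Type} {G : SimpleGraph V} {x : V → R3} {ψ : G.Dart → Fin 2 → ℂ}
    (hψ : IsSpinorChoice G x ψ) (d : G.Dart) :
    IsSpinorOf (-(direction x d.fst d.snd)) (ψ d.symm) := by
  rw [← direction_symm]
  exact hψ d.symm

theorem amplitude_D0 (x : Option (Fin a) ⊕ Option (Fin b) → R3)
    (ψ : (doubleStarGraph a b).Dart → Fin 2 → ℂ)
    (hψ : IsSpinorChoice (doubleStarGraph a b) x ψ) :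
    amplitude (doubleStarGraph a b) ψ (univ.map D0) =
      al (fun k => ψ (out0 k)) * al (fun k => ψ (out1 k)) +
        conj (omega (ψ (out0 none)) (ψ (out1 none))) / omega (ψ (out0 none)) (ψ (out1 none)) *
          (be (fun k => ψ (out0 k)) * be (fun k => ψ (out1 k))) := by
  have e0 : ∀ (i : Fin a) (w : Fin 2 → ℂ), omega w (ψ (lf0 i)) =
      omega (ψ (out0 (some i))) (ψ (lf0 i)) * ip (ψ (out0 (some i))) w := fun i w =>
    omega_opposite (hψ (out0 (some i))) (opposite hψ (out0 (some i))) w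
  have e1 : ∀ (j : Fin b) (w : Fin 2 → ℂ), omega w (ψ (lf1 j)) =
      omega (ψ (out1 (some j))) (ψ (lf1 j)) * ip (ψ (out1 (some j))) w := fun j w =>
    omega_opposite (hψ (out1 (some j))) (opposite hψ (out1 (some j))) w
  have e2 : ∀ w w' : Fin 2 → ℂ, omega w w' =
      omega (ψ (out0 none)) (ψ (out1 none)) *
        (ip (ψ (out0 none)) w * ip (ψ (out1 none)) w') +
      conj (omega (ψ (out0 none)) (ψ (out1 none))) *
        (ip (JJ (ψ (out0 none))) w * ip (JJ (ψ (out1 none))) w') := fun w w' =>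
    omega_central (hψ (out0 none)) (opposite hψ (out0 none)) w w'
  have hnum : numerator (doubleStarGraph a b) ψ (univ.map D0) =
      (∏ i : Fin a, omega (ψ (out0 (some i))) (ψ (lf0 i))) *
      (∏ j : Fin b, omega (ψ (out1 (some j))) (ψ (lf1 j))) *
      (omega (ψ (out0 none)) (ψ (out1 none)) *
          (al (fun k => ψ (out0 k)) * al (fun k => ψ (out1 k))) +
        conj (omega (ψ (out0 none)) (ψ (out1 none))) *
          (be (fun k => ψ (out0 k)) * be (fun k => ψ (out1 k)))) := by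
    rw [numerator_D0, ← sum_eq_al_be]
    refine Finset.sum_congr rfl fun p _ => ?_
    rw [Finset.prod_congr rfl fun i _ => e0 i (ψ (out0 (p.1 (some i)))),
      Finset.prod_congr rfl fun j _ => e1 j (ψ (out1 (p.2 (some j)))),
      e2 (ψ (out0 (p.1 none))) (ψ (out1 (p.2 none)))]
  have hden : denominator (doubleStarGraph a b) ψ (univ.map D0) =
      omega (ψ (out0 none)) (ψ (out1 none)) *
      (∏ i : Fin a, omega (ψ (out0 (some i))) (ψ (lf0 i))) *
      (∏ j : Fin b, omega (ψ (out1 (some j))) (ψ (lf1 j))) := by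
    rw [denominator, Finset.prod_map, Fintype.prod_sum_type, Fintype.prod_option]
    rfl
  have n1 : omega (ψ (out0 none)) (ψ (out1 none)) ≠ 0 :=
    omega_ne_zero (hψ (out0 none)) (opposite hψ (out0 none))
  have n2 : (∏ i : Fin a, omega (ψ (out0 (some i))) (ψ (lf0 i))) ≠ 0 :=
    Finset.prod_ne_zero_iff.2 fun i _ =>
      omega_ne_zero (hψ (out0 (some i))) (opposite hψ (out0 (some i)))
  have n3 : (∏ j : Fin b, omega (ψ (out1 (some j))) (ψ (lf1 j))) ≠ 0 :=
    Finset.prod_ne_zero_iff.2 fun j _ =>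
      omega_ne_zero (hψ (out1 (some j))) (opposite hψ (out1 (some j)))
  rw [amplitude, hnum, hden]
  field_simp

theorem amplitude_orient {x : Option (Fin a) ⊕ Option (Fin b) → R3}
    (ψ : (doubleStarGraph a b).Dart → Fin 2 → ℂ)
    (hψ : IsSpinorChoice (doubleStarGraph a b) x ψ) (Δ : Finset (doubleStarGraph a b).Dart)
    (hΔ : IsOrientation (doubleStarGraph a b) Δ) :
    amplitude (doubleStarGraph a b) ψ Δ = amplitude (doubleStarGraph a b) ψ (univ.map D0) := by
  obtain ⟨ε, hε⟩ := prod_orientation _ (univ.map D0) Δ orient_D0 hΔ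
  have h1 : numerator (doubleStarGraph a b) ψ Δ =
      ε * numerator (doubleStarGraph a b) ψ (univ.map D0) := by
    rw [numerator, numerator, Finset.mul_sum]
    refine Finset.sum_congr rfl fun σ _ => ?_
    exact hε (fun d => omega (ψ (σ d)) (ψ (σ d.symm)))
      (fun d => by rw [SimpleGraph.Dart.symm_symm]; exact omega_antisymm _ _)
  have h2 : denominator (doubleStarGraph a b) ψ Δ =
      ε * denominator (doubleStarGraph a b) ψ (univ.map D0) :=
    hε (fun d => omega (ψ d) (ψ d.symm))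
      (fun d => by rw [SimpleGraph.Dart.symm_symm]; exact omega_antisymm _ _)
  have h3 : ε ≠ 0 := by
    rintro rfl
    rw [zero_mul] at h2
    exact denominator_ne _ x ψ Δ hψ h2
  rw [amplitude, amplitude, h1, h2, mul_div_mul_left _ _ h3]

theorem amplitude_re (hab : a ^ 2 * b ^ 2 < 16 * ((a + 1) * (b + 1)))
    (x : Option (Fin a) ⊕ Option (Fin b) → R3) (ψ : (doubleStarGraph a b).Dart → Fin 2 → ℂ)
    (hψ : IsSpinorChoice (doubleStarGraph a b) x ψ) (Δ : Finset (doubleStarGraph a b).Dart)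
    (hΔ : IsOrientation (doubleStarGraph a b) Δ) :
    0 < 1 - rho a b ∧ denominator (doubleStarGraph a b) ψ Δ ≠ 0 ∧
      1 - rho a b ≤ (amplitude (doubleStarGraph a b) ψ Δ).re := by
  have hr := rho_lt hab
  refine ⟨by linarith, denominator_ne _ x ψ Δ hψ, ?_⟩
  have n1 : omega (ψ (out0 none)) (ψ (out1 none)) ≠ 0 :=
    omega_ne_zero (hψ (out0 none)) (opposite hψ (out0 none))
  rw [amplitude_orient ψ hψ Δ hΔ, amplitude_D0 x ψ hψ]
  refine combination_re hr.le _ _ (ip_self (hψ (out0 none))) (ip_self (hψ (out1 none)))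
    (fun i => ip_self (hψ (out0 (some i)))) (fun j => ip_self (hψ (out1 (some j)))) _ ?_
  rw [norm_div, RCLike.norm_conj, div_self (norm_ne_zero_iff.2 n1)]

end Pool.Agent.Y356.GA
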