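import Pool.Agent.Y356.GA.Permanent

/-!
# The lower bound for the weighted norm of a product of linear forms
-/

set_option autoImplicit false

namespace Pool.Agent.Y356.GA

open Finset Polynomial ComplexConjugate

/-- the weights of the invariant norm -/
noncomputable def VV (n k : ℕ) : ℝ := (k.factorial : ℝ) * ((n - k).factorial : ℝ)

theorem VV_le_WW (n k : ℕ) : VV n k ≤ WW n k := by
  unfold VV WW
  refine mul_le_mul_of_nonneg_right ?_ (by positivity)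
  exact_mod_cast Nat.factorial_le (Nat.le_succ k)

theorem norm_identity (k m : ℝ) (x y u v : ℂ) :
    (k + 1) * (m + 1) * ‖x * u + y * v‖ ^ 2 =
      ‖x‖ ^ 2 * (k + 1) * ((m + 1) * ‖u‖ ^ 2 - (k + 1) * ‖v‖ ^ 2) +
      ‖y‖ ^ 2 * (m + 1) * ((k + 1) * ‖v‖ ^ 2 - (m + 1) * ‖u‖ ^ 2) +
      ‖((k + 1 : ℝ) : ℂ) * (conj x * v) + ((m + 1 : ℝ) : ℂ) * (conj y * u)‖ ^ 2 := by
  simp only [← Complex.normSq_eq_norm_sq, Complex.normSq_apply, Complex.add_re, Complex.add_im,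
    Complex.mul_re, Complex.mul_im, Complex.conj_re, Complex.conj_im, Complex.ofReal_re,
    Complex.ofReal_im]
  ring

theorem marcus_term (n k : ℕ) (hk : k ≤ n) (q : ℕ → ℂ) (hq : q (n + 1) = 0) (x y : ℂ) :
    ‖x‖ ^ 2 * ((k : ℝ) + 1) * (VV n k * ‖q k‖ ^ 2 - VV n (k + 1) * ‖q (k + 1)‖ ^ 2) +
      ‖y‖ ^ 2 * ((n : ℝ) - k) * (VV n (k + 1) * ‖q (k + 1)‖ ^ 2 - VV n k * ‖q k‖ ^ 2) ≤
    VV (n + 1) (k + 1) * ‖x * q k + y * q (k + 1)‖ ^ 2 := by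
  rcases Nat.lt_or_ge k n with h | h
  · obtain ⟨m, rfl⟩ : ∃ m, n = k + 1 + m := ⟨n - (k + 1), by omega⟩
    unfold VV
    have e1 : k + 1 + m - k = m + 1 := by omega
    have e2 : k + 1 + m - (k + 1) = m := by omega
    have e3 : k + 1 + m + 1 - (k + 1) = m + 1 := by omega
    rw [e1, e2, e3, Nat.factorial_succ k, Nat.factorial_succ m]
    push_cast
    obtain ⟨N, hN⟩ : ∃ N : ℝ, N = (k.factorial : ℝ) * (m.factorial : ℝ) := ⟨_, rfl⟩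
    have hN0 : 0 ≤ N := by rw [hN]; positivity
    have key := norm_identity k m x y (q k) (q (k + 1))
    have h0 : 0 ≤ N * ‖(((k : ℝ) + 1 : ℝ) : ℂ) * (conj x * q (k + 1)) +
        (((m : ℝ) + 1 : ℝ) : ℂ) * (conj y * q k)‖ ^ 2 := by positivity
    have h1 : N * (((k : ℝ) + 1) * ((m : ℝ) + 1) * ‖x * q k + y * q (k + 1)‖ ^ 2) = _ :=
      congrArg (fun t => N * t) key
    have h2 : ((k : ℝ) + 1) * (k.factorial : ℝ) * (((m : ℝ) + 1) * (m.factorial : ℝ)) *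
        ‖x * q k + y * q (k + 1)‖ ^ 2 =
        N * (((k : ℝ) + 1) * ((m : ℝ) + 1) * ‖x * q k + y * q (k + 1)‖ ^ 2) := by
      rw [hN]; ring
    rw [h2, h1]
    have h3 : ‖x‖ ^ 2 * ((k : ℝ) + 1) * ((k.factorial : ℝ) * (((m : ℝ) + 1) * (m.factorial : ℝ)) *
          ‖q k‖ ^ 2 - ((k : ℝ) + 1) * (k.factorial : ℝ) * (m.factorial : ℝ) * ‖q (k + 1)‖ ^ 2) +
        ‖y‖ ^ 2 * ((k : ℝ) + 1 + m - k) * (((k : ℝ) + 1) * (k.factorial : ℝ) *
          (m.factorial : ℝ) * ‖q (k + 1)‖ ^ 2 -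
          (k.factorial : ℝ) * (((m : ℝ) + 1) * (m.factorial : ℝ)) * ‖q k‖ ^ 2) =
        N * (‖x‖ ^ 2 * ((k : ℝ) + 1) * (((m : ℝ) + 1) * ‖q k‖ ^ 2 -
            ((k : ℝ) + 1) * ‖q (k + 1)‖ ^ 2) +
          ‖y‖ ^ 2 * ((m : ℝ) + 1) * (((k : ℝ) + 1) * ‖q (k + 1)‖ ^ 2 -
            ((m : ℝ) + 1) * ‖q k‖ ^ 2)) := by
      rw [hN]; ring
    rw [h3, mul_add N]
    linarith
  · have hkn : k = n := le_antisymm hk h
    subst hkn
    rw [hq]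
    unfold VV
    have e1 : k + 1 - (k + 1) = 0 := by omega
    rw [e1, Nat.sub_self, Nat.factorial_succ k]
    push_cast
    rw [mul_zero, add_zero, norm_zero, norm_mul]
    apply le_of_eq
    ring

theorem marcus_step (n : ℕ) (q r : ℕ → ℂ) (hq : q (n + 1) = 0) (x y : ℂ)
    (hr0 : r 0 = y * q 0) (hr : ∀ k, r (k + 1) = x * q k + y * q (k + 1)) :
    (‖x‖ ^ 2 + ‖y‖ ^ 2) * ∑ k ∈ range (n + 1), VV n k * ‖q k‖ ^ 2 ≤
      ∑ k ∈ range (n + 2), VV (n + 1) k * ‖r k‖ ^ 2 := by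
  obtain ⟨s, hs⟩ : ∃ s : ℕ → ℝ, ∀ k, s k = VV n k * ‖q k‖ ^ 2 := ⟨_, fun _ => rfl⟩
  have hsn : s (n + 1) = 0 := by rw [hs, hq]; simp
  have h0 : VV (n + 1) 0 * ‖r 0‖ ^ 2 = ‖y‖ ^ 2 * (((n : ℝ) + 1) * s 0) := by
    rw [hs, hr0]
    unfold VV
    rw [Nat.sub_zero, Nat.sub_zero, Nat.factorial_succ n, norm_mul]
    push_cast
    ring
  have h1 : ∑ k ∈ range (n + 1), (‖x‖ ^ 2 * ((k : ℝ) + 1) * (s k - s (k + 1)) +
      ‖y‖ ^ 2 * ((n : ℝ) - k) * (s (k + 1) - s k)) ≤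
      ∑ k ∈ range (n + 1), VV (n + 1) (k + 1) * ‖r (k + 1)‖ ^ 2 := by
    refine Finset.sum_le_sum fun k hk => ?_
    rw [hs, hs, hr]
    exact marcus_term n k (Nat.lt_succ_iff.1 (Finset.mem_range.1 hk)) q hq x y
  rw [Finset.sum_range_succ' _ (n + 1), h0]
  have h2 : ∑ k ∈ range (n + 1), (‖x‖ ^ 2 * ((k : ℝ) + 1) * (s k - s (k + 1)) +
      ‖y‖ ^ 2 * ((n : ℝ) - k) * (s (k + 1) - s k)) =
      (‖x‖ ^ 2 + ‖y‖ ^ 2) * ∑ k ∈ range (n + 1), s k - ‖y‖ ^ 2 * (((n : ℝ) + 1) * s 0) := by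
    have t1 := Finset.sum_range_sub' (fun k : ℕ => (k : ℝ) * s k) (n + 1)
    have t2 := Finset.sum_range_sub (fun k : ℕ => ((n : ℝ) + 1 - k) * s k) (n + 1)
    have t3 : ∀ k ∈ range (n + 1), ‖x‖ ^ 2 * ((k : ℝ) + 1) * (s k - s (k + 1)) +
        ‖y‖ ^ 2 * ((n : ℝ) - k) * (s (k + 1) - s k) =
        (‖x‖ ^ 2 + ‖y‖ ^ 2) * s k +
        ‖x‖ ^ 2 * ((k : ℝ) * s k - ((k + 1 : ℕ) : ℝ) * s (k + 1)) +
        ‖y‖ ^ 2 * (((n : ℝ) + 1 - ((k + 1 : ℕ) : ℝ)) * s (k + 1) - ((n : ℝ) + 1 - k) * s k) := by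
      intro k _
      push_cast
      ring
    rw [Finset.sum_congr rfl t3, Finset.sum_add_distrib, Finset.sum_add_distrib,
      ← Finset.mul_sum, ← Finset.mul_sum, ← Finset.mul_sum, t1, t2, hsn]
    push_cast
    ring
  have h3 : ∑ k ∈ range (n + 1), VV n k * ‖q k‖ ^ 2 = ∑ k ∈ range (n + 1), s k :=
    Finset.sum_congr rfl fun k _ => (hs k).symm
  rw [h3]
  linarith

/-- Marcus's inequality in the plane -/
theorem marcus : ∀ (a : ℕ) (f h : Fin a → ℂ), (∀ i, ‖f i‖ ^ 2 + ‖h i‖ ^ 2 = 1) →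
    1 ≤ ∑ k ∈ range (a + 1), VV a k * ‖(poly f h).coeff k‖ ^ 2
  | 0, f, h, _ => by
    unfold poly VV
    simp
  | a + 1, f, h, hfh => by
    have ih := marcus a (fun i => f i.succ) (fun i => h i.succ) (fun i => hfh i.succ)
    obtain ⟨Q, hQ⟩ : ∃ Q, Q = poly (fun i : Fin a => f i.succ) (fun i => h i.succ) := ⟨_, rfl⟩
    rw [← hQ] at ih
    have hp : poly f h = (C (f 0) * X + C (h 0)) * Q := by
      rw [hQ]
      unfold poly
      rw [Fin.prod_univ_succ]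
    have hz : Q.coeff (a + 1) = 0 := by
      rw [hQ, coeff_poly, Finset.powersetCard_eq_empty.2 (by simp), Finset.sum_empty]
    have h1 := marcus_step a (fun k => Q.coeff k) (fun k => (poly f h).coeff k) hz (f 0) (h 0)
      (by
        rw [hp, Polynomial.mul_coeff_zero]
        simp)
      (by
        intro k
        rw [hp, add_mul, Polynomial.coeff_add, mul_assoc, Polynomial.coeff_C_mul,
          Polynomial.coeff_X_mul, Polynomial.coeff_C_mul])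
    rw [hfh 0, one_mul] at h1
    exact ih.trans h1

end Pool.Agent.Y356.GA
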