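import Mathlib

/-!
# Permanents of Gram matrices of vectors of the plane, and an inequality
-/

set_option autoImplicit false

namespace Pool.Agent.Y356.GA

open Finset Polynomial

section perm
variable {ι : Type} [Fintype ι] [DecidableEq ι]

theorem exists_perm_map {S T : Finset ι} (h : S.card = T.card) :
    ∃ τ : Equiv.Perm ι, S.map τ.toEmbedding = T := by
  classical
  have e : {x // x ∈ S} ≃ {x // x ∈ T} := Fintype.equivOfCardEq (by simpa using h)
  refine ⟨e.extendSubtype, ?_⟩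
  apply Finset.eq_of_subset_of_card_le
  · intro z hz
    rw [Finset.mem_map] at hz
    obtain ⟨w, hw, rfl⟩ := hz
    exact e.extendSubtype_mem w hw
  · rw [Finset.card_map, h]

/-- the average of a function on the subsets over the orbit of a subset -/
theorem sum_perm_map (F : Finset ι → ℂ) (S : Finset ι) :
    ∑ σ : Equiv.Perm ι, F (S.map σ.toEmbedding) =
      (S.card.factorial : ℂ) * ((Fintype.card ι - S.card).factorial : ℂ) *
        ∑ T ∈ powersetCard S.card univ, F T := by
  have hk : S.card ≤ Fintype.card ι := Finset.card_le_univ S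
  have h1 : ∀ T ∈ powersetCard S.card univ,
      ∑ σ : Equiv.Perm ι, F (T.map σ.toEmbedding) = ∑ σ : Equiv.Perm ι, F (S.map σ.toEmbedding) := by
    intro T hT
    rw [Finset.mem_powersetCard] at hT
    obtain ⟨τ, rfl⟩ := exists_perm_map hT.2.symm
    rw [← Equiv.sum_comp (Equiv.mulRight τ) (fun σ : Equiv.Perm ι => F (S.map σ.toEmbedding))]
    refine Finset.sum_congr rfl fun σ _ => ?_
    congr 1
    rw [Finset.map_map]
    congr 1
  have h2 : ∑ T ∈ powersetCard S.card univ, ∑ σ : Equiv.Perm ι, F (T.map σ.toEmbedding) =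
      (Fintype.card ι).factorial * ∑ T ∈ powersetCard S.card univ, F T := by
    rw [Finset.sum_comm]
    have h3 : ∀ σ : Equiv.Perm ι, ∑ T ∈ powersetCard S.card univ, F (T.map σ.toEmbedding) =
        ∑ T ∈ powersetCard S.card univ, F T := by
      intro σ
      refine Finset.sum_equiv (Equiv.finsetCongr σ) ?_ ?_
      · intro T
        simp [Finset.mem_powersetCard]
      · intro T _
        rfl
    rw [Finset.sum_congr rfl fun σ _ => h3 σ, Finset.sum_const, Finset.card_univ,
      Fintype.card_perm, nsmul_eq_mul]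
  rw [Finset.sum_congr rfl h1, Finset.sum_const, Finset.card_powersetCard, nsmul_eq_mul,
    Finset.card_univ] at h2
  have h4 : ((Fintype.card ι).choose S.card : ℂ) ≠ 0 := by
    exact_mod_cast (Nat.choose_pos hk).ne'
  apply mul_left_cancel₀ h4
  rw [h2]
  have h5 := Nat.choose_mul_factorial_mul_factorial hk
  have h6 : ((Fintype.card ι).factorial : ℂ) = ((Fintype.card ι).choose S.card : ℂ) *
      (S.card.factorial : ℂ) * ((Fintype.card ι - S.card).factorial : ℂ) := by
    exact_mod_cast h5.symm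
  rw [h6]
  ring

/-- the product over a subset and its complement -/
def eS (f h : ι → ℂ) (S : Finset ι) : ℂ := (∏ k ∈ S, f k) * ∏ k ∈ univ \ S, h k

/-- the polynomial of a family of vectors of the plane -/
noncomputable def poly (f h : ι → ℂ) : ℂ[X] := ∏ k, (C (f k) * X + C (h k))

theorem coeff_poly (f h : ι → ℂ) (j : ℕ) :
    (poly f h).coeff j = ∑ S ∈ powersetCard j univ, eS f h S := by
  unfold poly
  rw [Finset.prod_add, Polynomial.finsetSum_coeff]
  have h1 : ∀ S ∈ (univ : Finset ι).powerset,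
      ((∏ i ∈ S, (C (f i) * X)) * ∏ i ∈ univ \ S, C (h i)).coeff j =
        if S.card = j then eS f h S else 0 := by
    intro S _
    have h2 : (∏ i ∈ S, (C (f i) * X)) * ∏ i ∈ univ \ S, C (h i) = C (eS f h S) * X ^ S.card := by
      rw [Finset.prod_mul_distrib, Finset.prod_const]
      unfold eS
      rw [C_mul, map_prod, map_prod]
      ring
    rw [h2, Polynomial.coeff_C_mul_X_pow]
    by_cases h3 : S.card = j
    · rw [if_pos h3, if_pos h3.symm]
    · rw [if_neg h3, if_neg (fun h => h3 h.symm)]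
  rw [Finset.sum_congr rfl h1, ← Finset.sum_filter, Finset.powerset_univ]
  refine Finset.sum_congr ?_ fun _ _ => rfl
  ext S
  simp [Finset.mem_powersetCard]

theorem perm_identity (f g h l : ι → ℂ) :
    ∑ σ : Equiv.Perm ι, ∏ k, (f k * g (σ k) + h k * l (σ k)) =
      ∑ j ∈ range (Fintype.card ι + 1), (j.factorial : ℂ) *
        ((Fintype.card ι - j).factorial : ℂ) * ((poly f h).coeff j * (poly g l).coeff j) := by
  have h1 : ∀ σ : Equiv.Perm ι, ∏ k, (f k * g (σ k) + h k * l (σ k)) =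
      ∑ S ∈ (univ : Finset ι).powerset, eS f h S * eS g l (S.map σ.toEmbedding) := by
    intro σ
    rw [Finset.prod_add]
    refine Finset.sum_congr rfl fun S _ => ?_
    unfold eS
    have h2 : univ \ S.map σ.toEmbedding = (univ \ S).map σ.toEmbedding := by
      ext z
      simp only [Finset.mem_sdiff, Finset.mem_univ, true_and, Finset.mem_map,
        Equiv.coe_toEmbedding]
      constructor
      · intro hz
        refine ⟨σ.symm z, fun h => hz ⟨_, h, by simp⟩, by simp⟩
      · rintro ⟨w, hw, rfl⟩ ⟨w', hw', he⟩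
        rw [σ.injective he] at hw'
        exact hw hw'
    rw [h2, Finset.prod_map, Finset.prod_map, Finset.prod_mul_distrib, Finset.prod_mul_distrib]
    simp only [Equiv.coe_toEmbedding]
    ring
  rw [Finset.sum_congr rfl fun σ _ => h1 σ, Finset.sum_comm, Finset.sum_powerset,
    Finset.card_univ]
  refine Finset.sum_congr rfl fun j _ => ?_
  rw [coeff_poly f h, coeff_poly g l, Finset.sum_mul, Finset.mul_sum]
  refine Finset.sum_congr rfl fun S hS => ?_
  have hS' := (Finset.mem_powersetCard.1 hS).2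
  rw [← Finset.mul_sum, sum_perm_map, hS']
  ring

end perm

/-- the weights -/
noncomputable def WW (a k : ℕ) : ℝ := ((k + 1).factorial : ℝ) * ((a - k).factorial : ℝ)

theorem weight_ineq (a : ℕ) (q : ℕ → ℝ) :
    ∑ k ∈ range a, WW a k * (q (k + 1) * q k) ≤
      (a : ℝ) / (2 * Real.sqrt ((a : ℝ) + 1)) * ∑ k ∈ range (a + 1), WW a k * q k ^ 2 := by
  obtain ⟨R, hR⟩ : ∃ R, R = Real.sqrt ((a : ℝ) + 1) := ⟨_, rfl⟩
  have ha1 : (0 : ℝ) < (a : ℝ) + 1 := by positivity
  have hR0 : 0 < R := by rw [hR]; exact Real.sqrt_pos.2 ha1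
  have hR2 : R ^ 2 = (a : ℝ) + 1 := by rw [hR]; exact Real.sq_sqrt ha1.le
  rw [← hR]
  obtain ⟨A, hA⟩ : ∃ A : ℕ → ℝ, ∀ k, A k =
      WW a k / 2 * ((((a : ℝ) - k)) / (((k : ℝ) + 1) * R)) * q k ^ 2 := ⟨_, fun _ => rfl⟩
  obtain ⟨B, hB⟩ : ∃ B : ℕ → ℝ, ∀ k, B k =
      WW a k / 2 * ((k : ℝ) * R / ((k : ℝ) + 1)) * q k ^ 2 := ⟨_, fun _ => rfl⟩
  have h1 : ∀ k ∈ range a, WW a k * (q (k + 1) * q k) ≤ A k + B (k + 1) := by
    intro k hk
    have hka : k < a := Finset.mem_range.1 hk
    obtain ⟨n, rfl⟩ : ∃ n, a = k + 1 + n := ⟨a - (k + 1), by omega⟩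
    rw [hA, hB]
    unfold WW
    have e1 : k + 1 + n - k = n + 1 := by omega
    have e2 : k + 1 + n - (k + 1) = n := by omega
    rw [e1, e2]
    rw [show (k + 1 + 1).factorial = (k + 2) * (k + 1).factorial from Nat.factorial_succ _,
      show (n + 1).factorial = (n + 1) * n.factorial from Nat.factorial_succ _]
    obtain ⟨N, hN⟩ : ∃ N : ℝ, N = ((k + 1).factorial : ℝ) * (n.factorial : ℝ) := ⟨_, rfl⟩
    have hN0 : 0 ≤ N := by rw [hN]; positivity
    obtain ⟨s, hs⟩ : ∃ s : ℝ, s = ((k : ℝ) + 1) * R := ⟨_, rfl⟩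
    have hs0 : 0 < s := by rw [hs]; positivity
    push_cast
    have e3 : ((k : ℝ) + 1 + n - k) = (n : ℝ) + 1 := by ring
    rw [e3]
    have l1 : ((k + 1).factorial : ℝ) * (((n : ℝ) + 1) * (n.factorial : ℝ)) *
        (q (k + 1) * q k) = N * (((n : ℝ) + 1) * (q (k + 1) * q k)) := by rw [hN]; ring
    have l2 : ((k + 1).factorial : ℝ) * (((n : ℝ) + 1) * (n.factorial : ℝ)) / 2 *
        (((n : ℝ) + 1) / (((k : ℝ) + 1) * R)) * q k ^ 2 =
        N * ((((n : ℝ) + 1) * q k) ^ 2 / (2 * s)) := by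
      rw [hN, hs]; field_simp
    have l3 : ((k : ℝ) + 2) * ((k + 1).factorial : ℝ) * (n.factorial : ℝ) / 2 *
        (((k : ℝ) + 1) * R / ((k : ℝ) + 1 + 1)) * q (k + 1) ^ 2 =
        N * (s * q (k + 1) ^ 2 / 2) := by
      have : (k : ℝ) + 1 + 1 = (k : ℝ) + 2 := by ring
      have h0 : (k : ℝ) + 2 ≠ 0 := by positivity
      rw [hN, hs, this]; field_simp
    rw [l1, l2, l3, ← mul_add]
    refine mul_le_mul_of_nonneg_left ?_ hN0
    rw [← sub_nonneg]
    have : (((n : ℝ) + 1) * q k) ^ 2 / (2 * s) + s * q (k + 1) ^ 2 / 2 -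
        ((n : ℝ) + 1) * (q (k + 1) * q k) = (((n : ℝ) + 1) * q k - s * q (k + 1)) ^ 2 / (2 * s) := by
      field_simp
      ring
    rw [this]
    positivity
  have h2 : ∀ k ∈ range (a + 1), A k + B k = (a : ℝ) / (2 * R) * (WW a k * q k ^ 2) := by
    intro k _
    rw [hA, hB]
    have hk0 : (k : ℝ) + 1 ≠ 0 := by positivity
    field_simp
    rw [hR2]
    ring
  calc ∑ k ∈ range a, WW a k * (q (k + 1) * q k) ≤ ∑ k ∈ range a, (A k + B (k + 1)) :=
        Finset.sum_le_sum h1
    _ = ∑ k ∈ range a, A k + ∑ k ∈ range a, B (k + 1) := Finset.sum_add_distrib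
    _ = ∑ k ∈ range (a + 1), A k + ∑ k ∈ range (a + 1), B k := by
        rw [Finset.sum_range_succ A a, Finset.sum_range_succ' B a]
        have hAa : A a = 0 := by rw [hA]; simp
        have hB0 : B 0 = 0 := by rw [hB]; simp
        rw [hAa, hB0]
        ring
    _ = ∑ k ∈ range (a + 1), (A k + B k) := Finset.sum_add_distrib.symm
    _ = ∑ k ∈ range (a + 1), (a : ℝ) / (2 * R) * (WW a k * q k ^ 2) := Finset.sum_congr rfl h2
    _ = _ := by rw [Finset.mul_sum]

end Pool.Agent.Y356.GA
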