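import Pool.Agent.Y356.GA.Core
import Pool.Agent.Y356.GA.Bridge3

/-!
# Spinors of opposite directions and the hermitian form
-/

set_option autoImplicit false

namespace Pool.Agent.Y356.GA

open Finset ComplexConjugate Pool.Agent.Results.MP_b525e0_co.DoubleStarZero

theorem ip_self {u : R3} {a : Fin 2 → ℂ} (ha : IsSpinorOf u a) : ip a a = 1 := by
  have h := ha.1
  have h2 : ((‖a 0‖ ^ 2 + ‖a 1‖ ^ 2 : ℝ) : ℂ) = 1 := by rw [h]; norm_num
  push_cast at h2
  unfold ip
  rw [Complex.conj_mul', Complex.conj_mul']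
  exact h2

theorem ip_opposite {u : R3} {a χ : Fin 2 → ℂ} (ha : IsSpinorOf u a) (hχ : IsSpinorOf (-u) χ) :
    ip a χ = 0 := by
  obtain ⟨a1, a2⟩ := spinor_eqs ha
  obtain ⟨b1, b2⟩ := spinor_eqs hχ
  have c1 := congrArg conj a1
  have c2 := congrArg conj a2
  simp only [map_add, map_sub, map_mul, Complex.conj_ofReal, Complex.conj_I] at c1 c2
  simp only [PiLp.neg_apply, Complex.ofReal_neg] at b1 b2
  unfold ip
  linear_combination (-(1 / 2) * χ 0) * c1 - (1 / 2) * χ 1 * c2 - (1 / 2) * conj (a 0) * b1 -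
    (1 / 2) * conj (a 1) * b2

theorem omega_opposite {u : R3} {a χ : Fin 2 → ℂ} (ha : IsSpinorOf u a)
    (hχ : IsSpinorOf (-u) χ) (w : Fin 2 → ℂ) : omega w χ = omega a χ * ip a w := by
  have h1 := ip_self ha
  have h2 := ip_opposite ha hχ
  unfold ip at h1 h2
  unfold ip omega
  linear_combination (-(w 0 * χ 1 - w 1 * χ 0)) * h1 + (a 1 * w 0 - a 0 * w 1) * h2

theorem omega_central {u : R3} {P M : Fin 2 → ℂ} (hP : IsSpinorOf u P)
    (hM : IsSpinorOf (-u) M) (w w' : Fin 2 → ℂ) :
    omega w w' = omega P M * (ip P w * ip M w') +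
      conj (omega P M) * (ip (JJ P) w * ip (JJ M) w') := by
  have h1 := ip_self hP
  have h2 := ip_opposite hP hM
  have h3 := ip_self hM
  obtain ⟨c, hc⟩ : ∃ c, c = omega P M := ⟨_, rfl⟩
  have m0 : M 0 = -c * conj (P 1) := by
    rw [hc]
    unfold ip at h1 h2
    unfold omega
    linear_combination (-M 0) * h1 + P 0 * h2
  have m1 : M 1 = c * conj (P 0) := by
    rw [hc]
    unfold ip at h1 h2
    unfold omega
    linear_combination (-M 1) * h1 + P 1 * h2
  have hcc : c * conj c = 1 := by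
    unfold ip at h1 h3
    rw [m0, m1] at h3
    simp only [map_mul, map_neg, Complex.conj_conj] at h3
    linear_combination h3 - c * conj c * h1
  rw [← hc]
  unfold ip at h1
  unfold ip JJ omega
  simp only [Matrix.cons_val_zero, Matrix.cons_val_one, Matrix.cons_val_fin_one, map_neg,
    Complex.conj_conj]
  rw [m0, m1]
  simp only [map_mul, map_neg, Complex.conj_conj]
  linear_combination (-(w 0 * w' 1 - w 1 * w' 0)) * h1 -
    ((conj (P 0) * P 0 + conj (P 1) * P 1) * (w 0 * w' 1 - w 1 * w' 0)) * hcc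

end Pool.Agent.Y356.GA
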